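import Pool.Agent.J6H7.Chain.NLMain

/-!
# The path systems on grids as path systems with `n` elements and `n` rules
-/

set_option autoImplicit false

namespace Pool.Agent.J6H7.Chain

open Finset Matrix Filter

/-- A path system has the elements `0, ..., n - 1` and the `n` rules `R 0, ..., R (n - 1)`, which
are triples `(a, b, c)`: if `a` and `b` are derivable, then `c` is derivable. The variable `i` says
whether the rule `R i` is present. The function is true if `t` can be derived from `s` with the
rules which are present. -/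
def Derive {n : ℕ} (R : Fin n → Fin n × Fin n × Fin n) (s t : Fin n) (x : Fin n → Bool) : Prop :=
  Gen R s x t

variable {P G k : ℕ}

theorem gtrip_injective : Function.Injective (gtrip (P := P) (G := G) (k := k)) := by
  rintro ⟨p, e⟩ ⟨p', e'⟩ h
  cases e <;> cases e' <;> simp only [gtrip, Prod.mk.injEq, GNode.nd.injEq, reduceCtorEq,
    false_and, and_false, true_and, Fin.succ_inj, Fin.castSucc_inj] at h ⊢
  · obtain ⟨rfl, rfl, rfl⟩ := h
    simp
  · exact absurd h.2.1.1 (Fin.succ_ne_zero _).symm
  · exact absurd h.2.1.1 (Fin.succ_ne_zero _)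
  · obtain ⟨rfl, ⟨rfl, _⟩, rfl⟩ := h
    simp
  · obtain ⟨⟨rfl, ⟨rfl, rfl⟩, rfl⟩, ⟨_, _, rfl⟩, _, _, rfl⟩ := h
    simp
  · obtain ⟨⟨rfl, _, rfl⟩, _⟩ := h
    simp

theorem gtrip_ne_src (r : Fin P × GRule G k) : (gtrip r).2.2 ≠ .src := by
  obtain ⟨p, r⟩ := r
  cases r <;> simp [gtrip]

/-- the rank of an element -/
def grank : GNode P G k → ℕ
  | .src => 0
  | .tgt => 2 * G + 2
  | .nd _ v _ => v.1.1 + v.2.1 + 1

theorem grank_lt (r : Fin P × GRule G k) : grank (gtrip r).1 < grank (gtrip r).2.2 ∧
    grank (gtrip r).2.1 < grank (gtrip r).2.2 := by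
  obtain ⟨p, r⟩ := r
  cases r with
  | row b l => simp [gtrip, grank]
  | col a l => simp [gtrip, grank]
  | mid a b i j l =>
    constructor <;> simp only [gtrip, grank, Fin.val_succ, Fin.val_castSucc] <;> omega
  | goal l =>
    constructor <;> simp only [gtrip, grank, Fin.val_last] <;> omega

section graph

variable {n : ℕ} (φ : GNode P G k → Fin n) (e : Fin P × GRule G k → Fin n)

open Classical in
/-- The rules: those of the grids, and for all the other variables a rule whose conclusion is the
source. -/
noncomputable def grules (i : Fin n) : Fin n × Fin n × Fin n :=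
  if h : ∃ r, e r = i then
    (φ (gtrip h.choose).1, φ (gtrip h.choose).2.1, φ (gtrip h.choose).2.2)
  else (i, i, φ .src)

open Classical in
/-- The unused variables are false. -/
noncomputable def gσ (i : Fin n) : Bool ⊕ (Fin P × GRule G k) :=
  if h : ∃ r, e r = i then Sum.inr h.choose else Sum.inl false

theorem grules_of (he : Function.Injective e) (r : Fin P × GRule G k) :
    grules φ e (e r) = (φ (gtrip r).1, φ (gtrip r).2.1, φ (gtrip r).2.2) := by
  have hr : ∃ r', e r' = e r := ⟨r, rfl⟩
  have hrr : hr.choose = r := he hr.choose_spec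
  unfold grules
  rw [dif_pos hr, hrr]

theorem gσ_of (he : Function.Injective e) (r : Fin P × GRule G k) :
    gσ e (e r) = Sum.inr r := by
  have hr : ∃ r', e r' = e r := ⟨r, rfl⟩
  have hrr : hr.choose = r := he hr.choose_spec
  unfold gσ
  rw [dif_pos hr, hrr]

theorem grules_injective (hφ : Function.Injective φ) (he : Function.Injective e) :
    Function.Injective (grules φ e) := by
  intro i j hij
  by_cases hi : ∃ r, e r = i
  · obtain ⟨r, rfl⟩ := hi
    rw [grules_of φ e he] at hij
    by_cases hj : ∃ r', e r' = j
    · obtain ⟨r', rfl⟩ := hj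
      rw [grules_of φ e he, Prod.mk.injEq, Prod.mk.injEq] at hij
      have : gtrip r = gtrip r' :=
        Prod.ext (hφ hij.1) (Prod.ext (hφ hij.2.1) (hφ hij.2.2))
      rw [gtrip_injective this]
    · unfold grules at hij
      rw [dif_neg hj, Prod.mk.injEq, Prod.mk.injEq] at hij
      exact absurd (hφ hij.2.2) (gtrip_ne_src r)
  · by_cases hj : ∃ r', e r' = j
    · obtain ⟨r', rfl⟩ := hj
      rw [grules_of φ e he] at hij
      unfold grules at hij
      rw [dif_neg hi, Prod.mk.injEq, Prod.mk.injEq] at hij
      exact absurd (hφ hij.2.2).symm (gtrip_ne_src r')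
    · unfold grules at hij
      rw [dif_neg hi, dif_neg hj, Prod.mk.injEq] at hij
      exact hij.1

theorem derive_iff (hφ : Function.Injective φ) (he : Function.Injective e)
    (x : Fin P × GRule G k → Bool) :
    Derive (grules φ e) (φ .src) (φ .tgt) (subst (gσ e) x) ↔ GReach x := by
  constructor
  · intro h
    have key : ∀ b, Gen (grules φ e) (φ .src) (subst (gσ e) x) b →
        ∃ b', b = φ b' ∧ Gen gtrip .src x b' := by
      intro b hb
      induction hb with
      | start => exact ⟨_, rfl, Gen.start⟩
      | rule i hx _ _ ih1 ih2 =>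
        by_cases hi : ∃ r, e r = i
        · obtain ⟨r, rfl⟩ := hi
          unfold subst at hx
          rw [gσ_of e he] at hx
          rw [grules_of φ e he] at ih1 ih2 ⊢
          obtain ⟨b1, h1, h1'⟩ := ih1
          obtain ⟨b2, h2, h2'⟩ := ih2
          have e1 : (gtrip r).1 = b1 := hφ h1
          have e2 : (gtrip r).2.1 = b2 := hφ h2
          rw [← e1] at h1'
          rw [← e2] at h2'
          exact ⟨_, rfl, Gen.rule r hx h1' h2'⟩
        · unfold subst gσ at hx
          rw [dif_neg hi] at hx
          simp at hx
    obtain ⟨b', h1, h2⟩ := key _ h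
    rw [← hφ h1] at h2
    exact h2
  · intro h
    have key : ∀ b, Gen gtrip .src x b →
        Gen (grules φ e) (φ .src) (subst (gσ e) x) (φ b) := by
      intro b hb
      induction hb with
      | start => exact Gen.start
      | rule r hx _ _ ih1 ih2 =>
        have h := Gen.rule (R := grules φ e) (s := φ .src) (x := subst (gσ e) x) (e r)
          (by unfold subst; rw [gσ_of e he]; exact hx)
        rw [grules_of φ e he] at h
        exact h ih1 ih2
    exact key _ h

open Classical in
/-- the circuit -/
theorem derive_circuit (hφ : Function.Injective φ) (he : Function.Injective e) :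
    Pool.Agent.H520R2.MComp (Pool.Agent.H520R2.NM.VB (Fin n)) (3 * n)
      (fun x => decide (Derive (grules φ e) (φ .src) (φ .tgt) x)) := by
  have h := gen_circuit (grules φ e) (φ .src)
    (fun u => if h : ∃ b, φ b = u then grank h.choose else 0) ?_ (φ .tgt)
  · rw [Fintype.card_fin] at h
    exact h
  · intro i hi
    have hval : ∀ b, (if h : ∃ b', φ b' = φ b then grank h.choose else 0) = grank b := by
      intro b
      have hb : ∃ b', φ b' = φ b := ⟨b, rfl⟩
      rw [dif_pos hb, hφ hb.choose_spec]
    by_cases hir : ∃ r, e r = i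
    · obtain ⟨r, rfl⟩ := hir
      rw [grules_of φ e he]
      simp only [hval]
      exact grank_lt r
    · exfalso
      apply hi
      unfold grules
      rw [dif_neg hir]

end graph

theorem exists_gnodes {n : ℕ} (hn : P * ((G + 1) * (G + 1) * k) + 1 + 1 ≤ n) :
    ∃ φ : GNode P G k → Fin n, Function.Injective φ := by
  obtain ⟨φ⟩ : Nonempty (GNode P G k ↪ Fin n) :=
    Function.Embedding.nonempty_of_card_le (by rw [card_gnode, Fintype.card_fin]; exact hn)
  exact ⟨φ, φ.injective⟩

theorem exists_grules {n : ℕ} (hk : 2 ≤ k)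
    (hn : P * ((G + 1) * (G + 1) * (k * (k * k))) ≤ n) :
    ∃ e : Fin P × GRule G k → Fin n, Function.Injective e := by
  obtain ⟨e⟩ : Nonempty (Fin P × GRule G k ↪ Fin n) := by
    refine Function.Embedding.nonempty_of_card_le ?_
    rw [Fintype.card_prod, card_grule, Fintype.card_fin, Fintype.card_fin]
    refine le_trans (Nat.mul_le_mul_left P ?_) hn
    have h1 : 4 * k ≤ k * (k * k) := by
      have : 4 ≤ k * k := by nlinarith
      nlinarith
    nlinarith
  exact ⟨e, e.injective⟩

end Pool.Agent.J6H7.Chain
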