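import Pool.Agent.J6H7.Chain.Defs

/-!
# Strategies for the disjunction of many copies of a function
-/

set_option autoImplicit false

namespace Pool.Agent.J6H7.Chain

open Finset

namespace Strategy

variable {D ι : Type}

open Classical in
/-- the answers at `x` in the first round -/
noncomputable abbrev ans (acc : D → (ι → Bool) → Prop) {w : ℕ} (q : Fin w → D) (x : ι → Bool) :
    Fin w → Bool := fun j => decide (acc (q j) x)

open Classical in
/-- the code of the answers at `x` -/
noncomputable def code (acc : D → (ι → Bool) → Prop) :
    {l : List ℕ} → Strategy D l → (ι → Bool) → ℕ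
  | _, answer _, _ => 0
  | _, ask (l := l) q next, x => (univ.filter (fun j => acc (q j) x)).card * (l.map (· + 1)).prod +
      (next (ans acc q x)).code acc x

/-- the list of all the answers at `x` -/
noncomputable def path (acc : D → (ι → Bool) → Prop) :
    {l : List ℕ} → Strategy D l → (ι → Bool) → List Bool
  | _, answer _, _ => []
  | _, ask q next, x => List.ofFn (ans acc q x) ++ (next (ans acc q x)).path acc x

open Classical in
/-- the devices which are asked at `x` and do not accept `x`, and the last device -/
noncomputable def cand (acc : D → (ι → Bool) → Prop) :
    {l : List ℕ} → Strategy D l → (ι → Bool) → List D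
  | _, answer d, _ => [d]
  | _, ask q next, x => (List.ofFn q).filter (fun d => decide (¬ acc d x)) ++
      (next (ans acc q x)).cand acc x

variable (acc : D → (ι → Bool) → Prop)

theorem code_lt {l : List ℕ} (S : Strategy D l) (x : ι → Bool) :
    S.code acc x < (l.map (· + 1)).prod := by
  classical
  induction S with
  | answer d => simp [code]
  | @ask w l q next ih =>
    simp only [code, List.map_cons, List.prod_cons]
    have h1 : (univ.filter (fun j => acc (q j) x)).card ≤ w := by
      refine (card_filter_le _ _).trans ?_
      simp
    have h2 := ih (ans acc q x)
    have h3 := Nat.mul_le_mul_right (l.map (· + 1)).prod h1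
    have h4 : (w + 1) * (l.map (· + 1)).prod = w * (l.map (· + 1)).prod +
        (l.map (· + 1)).prod := by ring
    omega

theorem code_mono (hacc : ∀ d x y, x ≤ y → acc d x → acc d y) {l : List ℕ} (S : Strategy D l)
    {x y : ι → Bool} (hxy : x ≤ y) :
    S.code acc x < S.code acc y ∨ S.path acc x = S.path acc y := by
  classical
  induction S with
  | answer d => exact Or.inr rfl
  | @ask w l q next ih =>
    have hsub : (univ.filter (fun j => acc (q j) x)) ⊆ (univ.filter (fun j => acc (q j) y)) := by
      intro j hj
      rw [mem_filter] at hj ⊢
      exact ⟨hj.1, hacc _ _ _ hxy hj.2⟩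
    rcases (card_le_card hsub).lt_or_eq with hlt | heq
    · left
      simp only [code]
      have h2 := code_lt acc (next (ans acc q x)) x
      have h3 := Nat.mul_le_mul_right (l.map (· + 1)).prod (Nat.succ_le_of_lt hlt)
      have h4 : ((univ.filter (fun j => acc (q j) x)).card + 1) * (l.map (· + 1)).prod =
        (univ.filter (fun j => acc (q j) x)).card * (l.map (· + 1)).prod +
        (l.map (· + 1)).prod := by ring
      rw [Nat.succ_eq_add_one] at h3
      omega
    · have hset := eq_of_subset_of_card_le hsub heq.ge
      have hans : ans acc q x = ans acc q y := by
        funext j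
        have := Finset.ext_iff.mp hset j
        simp only [mem_filter, mem_univ, true_and] at this
        exact decide_eq_decide.2 this
      rcases ih (ans acc q x) with h | h
      · left
        simp only [code]
        rw [← hans, heq]
        omega
      · right
        simp only [path]
        rw [← hans, h]

theorem cand_length {l : List ℕ} (S : Strategy D l) (x : ι → Bool) :
    (S.cand acc x).length ≤ l.sum + 1 := by
  classical
  induction S with
  | answer d => simp [cand]
  | @ask w l q next ih =>
    simp only [cand, List.length_append, List.sum_cons]
    have h1 := List.length_filter_le (fun d => decide (¬ acc d x)) (List.ofFn q)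
    rw [List.length_ofFn] at h1
    have h2 := ih (ans acc q x)
    omega

theorem cand_all {p : D → Prop} {l : List ℕ} (S : Strategy D l) (hS : S.All p) (x : ι → Bool) :
    ∀ d ∈ S.cand acc x, p d := by
  classical
  induction S with
  | answer d =>
    intro d' hd'
    simp only [cand, List.mem_singleton] at hd'
    rw [hd']
    exact hS
  | @ask w l q next ih =>
    intro d hd
    simp only [cand, List.mem_append, List.mem_filter, List.mem_ofFn] at hd
    rcases hd with ⟨⟨j, rfl⟩, _⟩ | hd
    · exact hS.1 j
    · exact ih _ (hS.2 _) d hd

theorem cand_spec (hacc : ∀ d x y, x ≤ y → acc d x → acc d y) {l : List ℕ} (S : Strategy D l)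
    {x y : ι → Bool} (hxy : x ≤ y) :
    (S.path acc y = S.path acc x → (S.run acc y ↔ ∃ d ∈ S.cand acc x, acc d y)) ∧
      (S.path acc y ≠ S.path acc x → ∃ d ∈ S.cand acc x, acc d y) := by
  classical
  induction S with
  | answer d => simp [path, run, cand]
  | @ask w l q next ih =>
    obtain ⟨ih1, ih2⟩ := ih (ans acc q x)
    by_cases hans : ans acc q y = ans acc q x
    · -- the same answers in the first round
      have hno : ∀ d ∈ (List.ofFn q).filter (fun d => decide (¬ acc d x)), ¬ acc d y := by
        intro d hd hdy
        rw [List.mem_filter, List.mem_ofFn] at hd
        obtain ⟨⟨j, rfl⟩, hj⟩ := hd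
        have := congrFun hans j
        simp only [ans, decide_eq_decide] at this
        simp only [decide_eq_true_eq] at hj
        exact hj (this.1 hdy)
      have hiff : (∃ d ∈ (ask q next).cand acc x, acc d y) ↔
          ∃ d ∈ (next (ans acc q x)).cand acc x, acc d y := by
        simp only [cand, List.mem_append]
        constructor
        · rintro ⟨d, hd | hd, h⟩
          · exact absurd h (hno d hd)
          · exact ⟨d, hd, h⟩
        · rintro ⟨d, hd, h⟩
          exact ⟨d, Or.inr hd, h⟩
      have hrun : (ask q next).run acc y ↔ (next (ans acc q x)).run acc y := by
        rw [← hans]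
        rfl
      have hpath : (ask q next).path acc y = (ask q next).path acc x ↔
          (next (ans acc q x)).path acc y = (next (ans acc q x)).path acc x := by
        simp only [path]
        rw [hans]
        exact List.append_right_inj _
      rw [hiff, hrun]
      constructor
      · intro h
        exact ih1 (hpath.1 h)
      · intro h
        exact ih2 (fun h' => h (hpath.2 h'))
    · -- a new positive answer in the first round
      have hex : ∃ d ∈ (ask q next).cand acc x, acc d y := by
        by_contra hcon
        push Not at hcon
        apply hans
        funext j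
        apply decide_eq_decide.2
        constructor
        · intro h
          by_contra hx
          refine hcon (q j) ?_ h
          simp only [cand, List.mem_append, List.mem_filter, List.mem_ofFn]
          exact Or.inl ⟨⟨j, rfl⟩, by simpa using hx⟩
        · exact hacc _ _ _ hxy
      constructor
      · intro h
        exfalso
        apply hans
        simp only [path] at h
        have := List.append_inj_left h (by simp)
        exact List.ofFn_injective this
      · intro _
        exact hex

end Strategy

/-- The assignment `z` is put into the block `j`. -/
def put {P : ℕ} {β : Type} (x : Fin P × β → Bool) (j : Fin P) (z : β → Bool) :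
    Fin P × β → Bool := fun p => if p.1 = j then z p.2 else x p

theorem put_le {P : ℕ} {β : Type} {x : Fin P × β → Bool} {j : Fin P}
    (hx : ∀ b, x (j, b) = false) (z : β → Bool) : x ≤ put x j z := by
  rintro ⟨i, b⟩
  unfold put
  split_ifs with h
  · simp only at h
    rw [h, hx b]
    exact Bool.false_le _
  · exact le_rfl

theorem put_self {P : ℕ} {β : Type} (x : Fin P × β → Bool) (j : Fin P) (z : β → Bool) :
    (fun b => put x j z (j, b)) = z := by
  funext b
  simp [put]

theorem put_ne {P : ℕ} {β : Type} (x : Fin P × β → Bool) {i j : Fin P} (h : i ≠ j)
    (z : β → Bool) : (fun b => put x j z (i, b)) = fun b => x (i, b) := by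
  funext b
  simp [put, h]

/-- **The transfer principle.** If a strategy over monotone devices computes the disjunction of `P`
copies of `f`, and if the product of the numbers `w + 1` over all its rounds of `w` questions is at
most `P`, then `f` itself is the disjunction of few of the devices, with constants substituted
for the variables of all the other copies. -/
theorem transfer {D β : Type} {P : ℕ} (acc : D → (Fin P × β → Bool) → Prop)
    (hacc : ∀ d x y, x ≤ y → acc d x → acc d y) (f : (β → Bool) → Prop)
    (hf : ¬ f (fun _ => false)) {l : List ℕ} (hl : (l.map (· + 1)).prod ≤ P) (S : Strategy D l)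
    {p : D → Prop} (hp : S.All p)
    (hS : ∀ x, S.run acc x ↔ ∃ j, f (fun b => x (j, b))) :
    ∃ (j : Fin P) (x : Fin P × β → Bool) (ds : List D), ds.length ≤ l.sum + 1 ∧
      (∀ d ∈ ds, p d) ∧ ∀ z : β → Bool, f z ↔ ∃ d ∈ ds, acc d (put x j z) := by
  classical
  by_contra hcon
  push Not at hcon
  have step : ∀ n ≤ P, ∃ x : Fin P × β → Bool, (∀ j : Fin P, n ≤ j → ∀ b, x (j, b) = false) ∧
      (∀ j, ¬ f (fun b => x (j, b))) ∧ n ≤ S.code acc x := by
    intro n
    induction n with
    | zero =>
      intro _
      exact ⟨fun _ => false, fun _ _ _ => rfl, fun _ => hf, Nat.zero_le _⟩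
    | succ n ih =>
      intro hn
      obtain ⟨x, h1, h2, h3⟩ := ih (by omega)
      let j : Fin P := ⟨n, hn⟩
      have hj : ∀ b, x (j, b) = false := h1 j le_rfl
      have hval : ∀ z, (∃ i, f (fun b => put x j z (i, b))) ↔ f z := by
        intro z
        constructor
        · rintro ⟨i, hi⟩
          by_cases hij : i = j
          · rw [hij, put_self] at hi
            exact hi
          · rw [put_ne x hij] at hi
            exact absurd hi (h2 i)
        · intro hz
          exact ⟨j, by rw [put_self]; exact hz⟩
      obtain ⟨z, hz⟩ := hcon j x (S.cand acc x) (S.cand_length acc x) (S.cand_all acc hp x)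
      have hle := put_le hj z
      obtain ⟨hs1, hs2⟩ := S.cand_spec acc hacc hle
      have hrun : S.run acc (put x j z) ↔ f z := (hS _).trans (hval z)
      -- the paths are different and `f z` is false
      have hpath : S.path acc (put x j z) ≠ S.path acc x := by
        intro h
        have h4 := hs1 h
        rw [hrun] at h4
        rcases hz with ⟨ha, hb⟩ | ⟨ha, d, hd, hdz⟩
        · obtain ⟨d, hd, hdz⟩ := h4.1 ha
          exact hb d hd hdz
        · exact ha (h4.2 ⟨d, hd, hdz⟩)
      have hfz : ¬ f z := by
        rcases hz with ⟨ha, hb⟩ | ⟨ha, _⟩
        · obtain ⟨d, hd, hdz⟩ := hs2 hpath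
          exact absurd hdz (hb d hd)
        · exact ha
      refine ⟨put x j z, ?_, ?_, ?_⟩
      · intro i hi b
        have hij : i ≠ j := by
          intro h
          rw [h] at hi
          simp only [j] at hi
          omega
        have := congrFun (put_ne x hij z) b
        rw [this]
        exact h1 i (by omega) b
      · intro i
        by_cases hij : i = j
        · rw [hij, put_self]
          exact hfz
        · rw [put_ne x hij]
          exact h2 i
      · rcases S.code_mono acc hacc hle with h | h
        · omega
        · exact absurd h.symm hpath
  obtain ⟨x, _, _, h⟩ := step P le_rfl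
  have := S.code_lt acc x
  omega

end Pool.Agent.J6H7.Chain
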