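import Pool.Agent.J6H7.Chain.Rank

/-!
# The rank measure of the functions computed by span programs and by networks
-/

set_option autoImplicit false
set_option linter.unusedSectionVars false

namespace Pool.Agent.J6H7.Chain

open Finset Matrix

/-! ### span programs -/

section span

variable {K κ ι U W : Type} [Field K] [Fintype U] [Fintype W]

/-- the `e`-th vector -/
def Span.vec (S : Span K κ ι) (e : Fin S.vecs.length) : κ → K := (S.vecs.get e).1

/-- the `e`-th label -/
def Span.lab (S : Span K κ ι) (e : Fin S.vecs.length) : ι := (S.vecs.get e).2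

theorem Span.mem_vecs (S : Span K κ ι) (e : Fin S.vecs.length) : (S.vec e, S.lab e) ∈ S.vecs :=
  List.get_mem S.vecs e

theorem Span.exists_of_mem (S : Span K κ ι) {v : κ → K} {i : ι} (h : (v, i) ∈ S.vecs) :
    ∃ e, S.vec e = v ∧ S.lab e = i := by
  obtain ⟨e, he⟩ := List.get_of_mem h
  exact ⟨e, by rw [Span.vec, he], by rw [Span.lab, he]⟩

theorem Span.coeffs_aux (S : Span K κ ι) (x : ι → Bool) (u : κ → K)
    (h : u ∈ Submodule.span K {v : κ → K | v ∈ S.free ∨ ∃ i, (v, i) ∈ S.vecs ∧ x i = true}) :
    ∃ α : Fin S.vecs.length → K, (∀ e, α e ≠ 0 → x (S.lab e) = true) ∧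
      u - ∑ e, α e • S.vec e ∈ Submodule.span K {v : κ → K | v ∈ S.free} := by
  classical
  induction h using Submodule.span_induction with
  | mem v hv =>
    rcases hv with hv | ⟨i, hv, hx⟩
    · exact ⟨0, by simp, by simpa using Submodule.subset_span (show v ∈ {v | v ∈ S.free} from hv)⟩
    · obtain ⟨e, he1, he2⟩ := S.exists_of_mem hv
      refine ⟨Pi.single e 1, ?_, ?_⟩
      · intro e' he'
        have : e' = e := by
          by_contra hne
          exact he' (by simp [Pi.single_eq_of_ne hne])
        subst this
        rw [he2]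
        exact hx
      · rw [Finset.sum_eq_single e]
        · simp [he1]
        · intro b _ hb
          simp [Pi.single_eq_of_ne hb]
        · simp
  | zero => exact ⟨0, by simp, by simp⟩
  | add v v' _ _ h1 h2 =>
    obtain ⟨α, ha, hb⟩ := h1
    obtain ⟨α', ha', hb'⟩ := h2
    refine ⟨α + α', ?_, ?_⟩
    · intro e he
      by_cases h0 : α e = 0
      · exact ha' e (fun h0' => he (by simp [h0, h0']))
      · exact ha e h0
    · have : v + v' - ∑ e, (α + α') e • S.vec e =
          (v - ∑ e, α e • S.vec e) + (v' - ∑ e, α' e • S.vec e) := by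
        simp only [Pi.add_apply, add_smul, Finset.sum_add_distrib]
        abel
      rw [this]
      exact Submodule.add_mem _ hb hb'
  | smul c v _ h1 =>
    obtain ⟨α, ha, hb⟩ := h1
    refine ⟨c • α, ?_, ?_⟩
    · intro e he
      apply ha e
      intro h0
      exact he (by simp [h0])
    · have : c • v - ∑ e, (c • α) e • S.vec e = c • (v - ∑ e, α e • S.vec e) := by
        rw [smul_sub, Finset.smul_sum]
        simp only [Pi.smul_apply, smul_eq_mul, mul_smul]
      rw [this]
      exact Submodule.smul_mem _ _ hb

theorem Span.coeffs (S : Span K κ ι) (x : ι → Bool) (h : S.Accepts x) :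
    ∃ α : Fin S.vecs.length → K, (∀ e, α e ≠ 0 → x (S.lab e) = true) ∧
      S.target - ∑ e, α e • S.vec e ∈ Submodule.span K {v : κ → K | v ∈ S.free} :=
  S.coeffs_aux x S.target h

theorem Span.functional (S : Span K κ ι) (x : ι → Bool) (h : ¬ S.Accepts x) :
    ∃ φ : (κ → K) →ₗ[K] K, φ S.target = 1 ∧ (∀ v ∈ S.free, φ v = 0) ∧
      ∀ e : Fin S.vecs.length, φ (S.vec e) ≠ 0 → x (S.lab e) = false := by
  obtain ⟨f, hf, hker⟩ := Submodule.exists_le_ker_of_notMem h
  refine ⟨(f S.target)⁻¹ • f, by simp [hf], ?_, ?_⟩
  · intro v hv
    have : f v = 0 := hker (Submodule.subset_span (Or.inl hv))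
    simp [this]
  · intro e he
    by_contra hx
    rw [Bool.not_eq_false] at hx
    apply he
    have : f (S.vec e) = 0 :=
      hker (Submodule.subset_span (Or.inr ⟨S.lab e, S.mem_vecs e, hx⟩))
    simp only [LinearMap.smul_apply, this, smul_zero]

variable {A : Matrix U W K} {pos : U → ι → Bool} {neg : W → ι → Bool}

theorem rb_span (S : Span K κ ι) {ρ : ℕ}
    (hρ : ∀ i, rb A pos neg (fun x => x i = true) ≤ ρ) :
    rb A pos neg S.Accepts ≤ S.size * ρ := by
  classical
  have hA : ∀ u : U, ∃ α : Fin S.vecs.length → K, S.Accepts (pos u) →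
      (∀ e, α e ≠ 0 → pos u (S.lab e) = true) ∧
      S.target - ∑ e, α e • S.vec e ∈ Submodule.span K {v : κ → K | v ∈ S.free} := by
    intro u
    by_cases hu : S.Accepts (pos u)
    · obtain ⟨α, h⟩ := S.coeffs (pos u) hu
      exact ⟨α, fun _ => h⟩
    · exact ⟨0, fun h => absurd h hu⟩
  have hB : ∀ w : W, ∃ φ : (κ → K) →ₗ[K] K, ¬ S.Accepts (neg w) →
      φ S.target = 1 ∧ (∀ v ∈ S.free, φ v = 0) ∧
      ∀ e : Fin S.vecs.length, φ (S.vec e) ≠ 0 → neg w (S.lab e) = false := by
    intro w
    by_cases hw : S.Accepts (neg w)
    · exact ⟨0, fun h => absurd hw h⟩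
    · obtain ⟨φ, h⟩ := S.functional (neg w) hw
      exact ⟨φ, fun _ => h⟩
  choose α hα using hA
  choose φ hφ using hB
  have key : mask A pos neg S.Accepts = ∑ e : Fin S.vecs.length,
      Matrix.of fun u w => (if S.Accepts (pos u) then α u e else 0) *
        mask A pos neg (fun x => x (S.lab e) = true) u w *
        (if S.Accepts (neg w) then 0 else φ w (S.vec e)) := by
    ext u w
    rw [Matrix.sum_apply]
    simp only [of_apply]
    by_cases hu : S.Accepts (pos u)
    · by_cases hw : S.Accepts (neg w)
      · simp only [if_pos hw, mul_zero, Finset.sum_const_zero]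
        simp only [mask, of_apply]
        rw [if_neg (fun h => h.2 hw)]
      · obtain ⟨hα1, hα2⟩ := hα u hu
        obtain ⟨hφ1, hφ2, hφ3⟩ := hφ w hw
        have h1 : ∀ e : Fin S.vecs.length, (if S.Accepts (pos u) then α u e else 0) *
            mask A pos neg (fun x => x (S.lab e) = true) u w *
            (if S.Accepts (neg w) then 0 else φ w (S.vec e)) =
            A u w * (α u e * φ w (S.vec e)) := by
          intro e
          rw [if_pos hu, if_neg hw]
          by_cases ha : α u e = 0
          · rw [ha]; ring
          · by_cases hb : φ w (S.vec e) = 0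
            · rw [hb]; ring
            · have h2 := hα1 e ha
              have h3 := hφ3 e hb
              simp only [mask, of_apply]
              rw [if_pos ⟨h2, by rw [h3]; simp⟩]
              ring
        rw [Finset.sum_congr rfl fun e _ => h1 e, ← Finset.mul_sum]
        have h4 : φ w (S.target - ∑ e, α u e • S.vec e) = 0 := by
          have h5 : Submodule.span K {v : κ → K | v ∈ S.free} ≤ LinearMap.ker (φ w) := by
            rw [Submodule.span_le]
            intro v hv
            exact hφ2 v hv
          exact h5 hα2
        rw [map_sub, map_sum, hφ1, sub_eq_zero] at h4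
        simp only [map_smul, smul_eq_mul] at h4
        rw [← h4]
        simp [mask, hu, hw]
    · simp only [if_neg hu, zero_mul, Finset.sum_const_zero]
      simp only [mask, of_apply]
      rw [if_neg (fun h => hu h.1)]
  unfold rb
  rw [key]
  refine (rank_sum_le _ _).trans ?_
  calc ∑ e : Fin S.vecs.length, (Matrix.of fun u w =>
        (if S.Accepts (pos u) then α u e else 0) *
        mask A pos neg (fun x => x (S.lab e) = true) u w *
        (if S.Accepts (neg w) then 0 else φ w (S.vec e))).rank
      ≤ ∑ _e : Fin S.vecs.length, ρ := Finset.sum_le_sum fun e _ =>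
        (rank_scale_le (mask A pos neg (fun x => x (S.lab e) = true))
          (fun u => if S.Accepts (pos u) then α u e else 0)
          (fun w => if S.Accepts (neg w) then 0 else φ w (S.vec e))).trans (hρ _)
    _ = S.size * ρ := by simp [Span.size]

end span

/-! ### undirected networks -/

section undirected

variable {V ι : Type}

open Classical in
/-- The span program of an undirected network. -/
noncomputable def Net.toSpan (K : Type) [Field K] (N : Net V ι) : Span K V ι where
  target := Pi.single N.s 1 - Pi.single N.t 1
  free := N.free.map fun p => Pi.single p.1 1 - Pi.single p.2 1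
  vecs := N.wires.map fun p => (Pi.single p.1 1 - Pi.single p.2.1 1, p.2.2)

theorem Net.toSpan_accepts (K : Type) [Field K] (N : Net V ι) (x : ι → Bool) :
    (N.toSpan K).Accepts x ↔ N.Undirected x := by
  classical
  set T : Set (V → K) := {v : V → K | v ∈ (N.toSpan K).free ∨
    ∃ i, (v, i) ∈ (N.toSpan K).vecs ∧ x i = true} with hT
  have hstep : ∀ a b, N.Step x a b → (Pi.single a 1 - Pi.single b 1 : V → K) ∈ T := by
    intro a b h
    rcases h with h | ⟨i, h, hx⟩
    · left
      exact List.mem_map.2 ⟨(a, b), h, rfl⟩
    · right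
      exact ⟨i, List.mem_map.2 ⟨(a, b, i), h, rfl⟩, hx⟩
  have hT' : ∀ v ∈ T, ∃ a b, N.Step x a b ∧ v = Pi.single a 1 - Pi.single b 1 := by
    rintro v (hv | ⟨i, hv, hx⟩)
    · obtain ⟨p, hp, rfl⟩ := List.mem_map.1 hv
      exact ⟨p.1, p.2, Or.inl hp, rfl⟩
    · obtain ⟨p, hp, hpe⟩ := List.mem_map.1 hv
      simp only [Prod.mk.injEq] at hpe
      obtain ⟨h1, h2⟩ := hpe
      exact ⟨p.1, p.2.1, Or.inr ⟨p.2.2, hp, by rw [h2]; exact hx⟩, h1.symm⟩
  constructor
  · intro h
    by_contra hcon
    -- the component of the source
    let C : Set V := {a | Relation.ReflTransGen (fun a b => N.Step x a b ∨ N.Step x b a) N.s a}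
    have hC : ∀ a b, N.Step x a b → (a ∈ C ↔ b ∈ C) := by
      intro a b hab
      exact ⟨fun h => Relation.ReflTransGen.tail h (Or.inl hab),
        fun h => Relation.ReflTransGen.tail h (Or.inr hab)⟩
    let τ : (V →₀ K) →ₗ[K] K := Finsupp.linearCombination K (fun a => if a ∈ C then (1 : K) else 0)
    let c : (V →₀ K) →ₗ[K] (V → K) := Finsupp.lcoeFun
    have hle : Submodule.span K T ≤ Submodule.map c (LinearMap.ker τ) := by
      rw [Submodule.span_le]
      intro v hv
      obtain ⟨a, b, hab, rfl⟩ := hT' v hv
      refine ⟨Finsupp.single a 1 - Finsupp.single b 1, ?_, ?_⟩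
      · show τ _ = 0
        simp only [τ, map_sub, Finsupp.linearCombination_single, smul_eq_mul, one_mul]
        by_cases ha : a ∈ C
        · rw [if_pos ha, if_pos ((hC a b hab).1 ha), sub_self]
        · rw [if_neg ha, if_neg (fun h => ha ((hC a b hab).2 h)), sub_self]
      · ext d
        simp [c, Finsupp.lcoeFun, Finsupp.single_apply, Pi.single_apply, eq_comm]
    obtain ⟨g, hg, hgt⟩ := hle h
    have hgeq : g = Finsupp.single N.s 1 - Finsupp.single N.t 1 := by
      ext d
      have := congrFun hgt d
      simp only [c, Finsupp.lcoeFun, LinearMap.coe_mk, AddHom.coe_mk, Net.toSpan,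
        Pi.sub_apply] at this
      rw [this]
      simp [Finsupp.single_apply, Pi.single_apply, eq_comm]
    have h1 : τ g = 0 := hg
    rw [hgeq] at h1
    simp only [τ, map_sub, Finsupp.linearCombination_single, smul_eq_mul, one_mul] at h1
    rw [if_pos (show N.s ∈ C from Relation.ReflTransGen.refl),
      if_neg (show N.t ∉ C from hcon), sub_zero] at h1
    exact one_ne_zero h1
  · intro h
    have : ∀ b, Relation.ReflTransGen (fun a b => N.Step x a b ∨ N.Step x b a) N.s b →
        (Pi.single N.s 1 - Pi.single b 1 : V → K) ∈ Submodule.span K T := by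
      intro b hb
      induction hb with
      | refl => simp
      | @tail b c _ hbc ih =>
        have h2 : (Pi.single b 1 - Pi.single c 1 : V → K) ∈ Submodule.span K T := by
          rcases hbc with hbc | hbc
          · exact Submodule.subset_span (hstep _ _ hbc)
          · have h3 : (Pi.single c 1 - Pi.single b 1 : V → K) ∈ Submodule.span K T :=
              Submodule.subset_span (hstep _ _ hbc)
            have h4 := (Submodule.span K T).neg_mem h3
            rwa [neg_sub] at h4
        have := (Submodule.span K T).add_mem ih h2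
        rwa [sub_add_sub_cancel] at this
    exact this N.t h

variable {K U W : Type} [Field K] [Fintype U] [Fintype W]
  {A : Matrix U W K} {pos : U → ι → Bool} {neg : W → ι → Bool}

theorem rb_undirected (N : Net V ι) {ρ : ℕ}
    (hρ : ∀ i, rb A pos neg (fun x => x i = true) ≤ ρ) :
    rb A pos neg N.Undirected ≤ N.size * ρ := by
  have h := rb_span (N.toSpan K) hρ
  have h2 : (N.toSpan K).size = N.size := by simp [Net.toSpan, Span.size, Net.size]
  rw [h2] at h
  exact (rb_congr fun x => (N.toSpan_accepts K x).symm).le.trans h

end undirected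

/-! ### directed networks -/

section power

variable {T : Type}

/-- The paths of length between `1` and `2 ^ j`. -/
def Pw (E : T → T → Prop) : ℕ → T → T → Prop
  | 0 => E
  | j + 1 => fun p q => Pw E j p q ∨ ∃ r, Pw E j p r ∧ Pw E j r q

theorem transGen_of_pw {E : T → T → Prop} {j : ℕ} : ∀ {p q : T}, Pw E j p q →
    Relation.TransGen E p q := by
  induction j with
  | zero => intro p q h; exact Relation.TransGen.single h
  | succ j ih =>
    rintro p q (h | ⟨r, h1, h2⟩)
    · exact ih h
    · exact (ih h1).trans (ih h2)

theorem pw_of_seq {E : T → T → Prop} {j : ℕ} : ∀ {n : ℕ}, 0 < n → n ≤ 2 ^ j → ∀ f : ℕ → T,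
    (∀ i < n, E (f i) (f (i + 1))) → Pw E j (f 0) (f n) := by
  induction j with
  | zero =>
    intro n h0 hn f hf
    have : n = 1 := by
      simp only [pow_zero] at hn
      omega
    subst this
    exact hf 0 (by omega)
  | succ j ih =>
    intro n h0 hn f hf
    by_cases h : n ≤ 2 ^ j
    · exact Or.inl (ih h0 h f hf)
    · right
      refine ⟨f (2 ^ j), ih (by positivity) le_rfl f (fun i hi => hf i (by omega)), ?_⟩
      have h2 := ih (n := n - 2 ^ j) (by omega) (by rw [pow_succ] at hn; omega)
        (fun i => f (i + 2 ^ j)) (fun i hi => by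
          have := hf (i + 2 ^ j) (by omega)
          rwa [show i + 2 ^ j + 1 = i + 1 + 2 ^ j by ring] at this)
      simp only [zero_add] at h2
      rwa [Nat.sub_add_cancel (by omega)] at h2

theorem exists_seq {E : T → T → Prop} {p q : T} (h : Relation.TransGen E p q) :
    ∃ (n : ℕ) (f : ℕ → T), 0 < n ∧ f 0 = p ∧ f n = q ∧ ∀ i < n, E (f i) (f (i + 1)) := by
  induction h with
  | @single b hb =>
    refine ⟨1, fun i => if i = 0 then p else b, by omega, by simp, by simp, ?_⟩
    intro i hi
    have : i = 0 := by omega
    subst this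
    simpa using hb
  | @tail b c _ hbc ih =>
    obtain ⟨n, f, h0, h1, h2, h3⟩ := ih
    refine ⟨n + 1, fun i => if i ≤ n then f i else c, by omega, by simpa using h1, by simp, ?_⟩
    intro i hi
    by_cases hin : i < n
    · have := h3 i hin
      simpa [show i ≤ n by omega, show i + 1 ≤ n by omega] using this
    · have : i = n := by omega
      subst this
      simpa [h2] using hbc

theorem pw_of_transGen [Fintype T] {E : T → T → Prop} {p q : T} {j : ℕ}
    (hj : Fintype.card T ≤ 2 ^ j) (h : Relation.TransGen E p q) : Pw E j p q := by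
  classical
  have hex : ∃ n, ∃ f : ℕ → T, 0 < n ∧ f 0 = p ∧ f n = q ∧ ∀ i < n, E (f i) (f (i + 1)) :=
    exists_seq h
  obtain ⟨f, h0, h1, h2, h3⟩ := Nat.find_spec hex
  set n := Nat.find hex with hn
  have hle : n ≤ Fintype.card T := by
    by_contra hcon
    push Not at hcon
    -- two of the nodes after the first coincide
    obtain ⟨a, b, hab, heq⟩ := Fintype.exists_ne_map_eq_of_card_lt
      (fun i : Fin n => f (i.1 + 1)) (by simpa using hcon)
    -- a shorter path
    have key : ∀ a b : Fin n, a < b → f (a.1 + 1) = f (b.1 + 1) → False := by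
      intro a b hab heq
      have hlt : a.1 < b.1 := hab
      have hbn := b.2
      have hmin := Nat.find_min hex (m := n - (b.1 - a.1)) (by omega)
      apply hmin
      refine ⟨fun i => if i ≤ a.1 + 1 then f i else f (i + (b.1 - a.1)), by omega, ?_, ?_, ?_⟩
      · simpa using h1
      · by_cases hc : n - (b.1 - a.1) ≤ a.1 + 1
        · have hb : b.1 + 1 = n := by omega
          have : n - (b.1 - a.1) = a.1 + 1 := by omega
          simp only [this, le_refl, if_true]
          rw [heq, hb, h2]
        · simp only [hc, if_false]
          rw [Nat.sub_add_cancel (by omega), h2]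
      · intro i hi
        by_cases hc : i + 1 ≤ a.1 + 1
        · have := h3 i (by omega)
          simpa [hc, show i ≤ a.1 + 1 by omega] using this
        · by_cases hd : i ≤ a.1 + 1
          · have hi' : i = a.1 + 1 := by omega
            have := h3 (b.1 + 1) (by omega)
            simp only [hc, hd, if_true, if_false]
            rw [hi', heq]
            rwa [show a.1 + 1 + 1 + (b.1 - a.1) = b.1 + 1 + 1 by omega]
          · have := h3 (i + (b.1 - a.1)) (by omega)
            simp only [hc, hd, if_false]
            rwa [show i + 1 + (b.1 - a.1) = i + (b.1 - a.1) + 1 by omega]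
    rcases lt_trichotomy a b with h | h | h
    · exact key a b h heq
    · exact hab h
    · exact key b a h heq.symm
  have := pw_of_seq h0 (hle.trans hj) f h3
  rwa [h1, h2] at this

variable {K U W ι : Type} [Field K] [Fintype U] [Fintype W]
  {A : Matrix U W K} {pos : U → ι → Bool} {neg : W → ι → Bool}

theorem rb_pw [Fintype T] (E : (ι → Bool) → T → T → Prop) {ρ : ℕ}
    (hρ : ∀ p q, rb A pos neg (fun x => E x p q) ≤ ρ) (j : ℕ) :
    ∀ p q, rb A pos neg (fun x => Pw (E x) j p q) ≤ (2 * Fintype.card T + 1) ^ j * ρ := by
  induction j with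
  | zero => intro p q; simpa [Pw] using hρ p q
  | succ j ih =>
    intro p q
    have h1 : ∀ r, rb A pos neg (fun x => Pw (E x) j p r ∧ Pw (E x) j r q) ≤
        2 * ((2 * Fintype.card T + 1) ^ j * ρ) := by
      intro r
      have := rb_and (A := A) (pos := pos) (neg := neg) (fun x => Pw (E x) j p r)
        (fun x => Pw (E x) j r q)
      have h2 := ih p r
      have h3 := ih r q
      omega
    have h2 := rb_exists_fintype_le (A := A) (pos := pos) (neg := neg)
      (fun r x => Pw (E x) j p r ∧ Pw (E x) j r q) h1
    have h3 := rb_or (A := A) (pos := pos) (neg := neg) (fun x => Pw (E x) j p q)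
      (fun x => ∃ r, Pw (E x) j p r ∧ Pw (E x) j r q)
    have h4 := ih p q
    refine h3.trans ?_
    calc _ ≤ (2 * Fintype.card T + 1) ^ j * ρ +
          Fintype.card T * (2 * ((2 * Fintype.card T + 1) ^ j * ρ)) := Nat.add_le_add h4 h2
      _ = (2 * Fintype.card T + 1) ^ (j + 1) * ρ := by ring

end power

section directed

variable {V ι : Type} (N : Net V ι)

/-- the node after a wire (or the source) -/
def Net.after : Option (Fin N.wires.length) → V
  | none => N.s
  | some e => (N.wires.get e).2.1

/-- the node before a wire (or the target) -/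
def Net.before : Option (Fin N.wires.length) → V
  | none => N.t
  | some e => (N.wires.get e).1

/-- the condition that a wire conducts -/
def Net.cond (x : ι → Bool) : Option (Fin N.wires.length) → Prop
  | none => True
  | some e => x (N.wires.get e).2.2 = true

/-- One can go from the node after `p` along free wires to the node before `q`, and `q`
conducts. -/
def Net.link (x : ι → Bool) (p q : Option (Fin N.wires.length)) : Prop :=
  Relation.ReflTransGen (fun a b => (a, b) ∈ N.free) (N.after p) (N.before q) ∧ N.cond x q

theorem Net.reach_of_free {x : ι → Bool} {a b : V}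
    (h : Relation.ReflTransGen (fun a b => (a, b) ∈ N.free) a b) :
    Relation.ReflTransGen (N.Step x) a b := by
  induction h with
  | refl => exact Relation.ReflTransGen.refl
  | tail _ hbc ih => exact ih.tail (Or.inl hbc)

theorem Net.step_get {x : ι → Bool} {e : Fin N.wires.length}
    (h : x (N.wires.get e).2.2 = true) : N.Step x (N.wires.get e).1 (N.wires.get e).2.1 :=
  Or.inr ⟨_, List.get_mem N.wires e, h⟩

theorem Net.directed_iff (x : ι → Bool) :
    N.Directed x ↔ Relation.TransGen (N.link x) none none := by
  constructor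
  · intro h
    have key : ∀ b, Relation.ReflTransGen (N.Step x) N.s b →
        Relation.ReflTransGen (fun a b => (a, b) ∈ N.free) N.s b ∨
        ∃ e, Relation.TransGen (N.link x) none (some e) ∧
          Relation.ReflTransGen (fun a b => (a, b) ∈ N.free) (N.after (some e)) b := by
      intro b hb
      induction hb with
      | refl => exact Or.inl Relation.ReflTransGen.refl
      | @tail b c _ hbc ih =>
        rcases hbc with hbc | ⟨i, hbc, hx⟩
        · rcases ih with ih | ⟨e, h1, h2⟩
          · exact Or.inl (ih.tail hbc)
          · exact Or.inr ⟨e, h1, h2.tail hbc⟩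
        · right
          obtain ⟨e, he⟩ := List.get_of_mem hbc
          have hb1 : N.before (some e) = b := by simp only [Net.before]; rw [he]
          have hb2 : N.after (some e) = c := by simp only [Net.after]; rw [he]
          have hb3 : N.cond x (some e) := by simp only [Net.cond]; rw [he]; exact hx
          refine ⟨e, ?_, by rw [hb2]⟩
          rcases ih with ih | ⟨e', h1, h2⟩
          · exact Relation.TransGen.single ⟨by rw [hb1]; exact ih, hb3⟩
          · exact Relation.TransGen.tail h1 ⟨by rw [hb1]; exact h2, hb3⟩
    rcases key N.t h with h1 | ⟨e, h1, h2⟩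
    · exact Relation.TransGen.single ⟨h1, trivial⟩
    · exact Relation.TransGen.tail h1 ⟨h2, trivial⟩
  · intro h
    have step : ∀ p q, Relation.ReflTransGen (N.Step x) N.s (N.after p) → N.link x p q →
        N.Directed x ∨ ∃ e, q = some e ∧
          Relation.ReflTransGen (N.Step x) N.s (N.after (some e)) := by
      intro p q hp hpq
      obtain ⟨h1, h2⟩ := hpq
      have h3 := hp.trans (N.reach_of_free (x := x) h1)
      cases q with
      | none => exact Or.inl h3
      | some e => exact Or.inr ⟨e, rfl, h3.tail (N.step_get h2)⟩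
    have key : ∀ q, Relation.TransGen (N.link x) none q →
        N.Directed x ∨ ∃ e, q = some e ∧
          Relation.ReflTransGen (N.Step x) N.s (N.after (some e)) := by
      intro q hq
      induction hq with
      | single hb => exact step none _ Relation.ReflTransGen.refl hb
      | tail _ hbc ih =>
        rcases ih with ih | ⟨e, rfl, ih⟩
        · exact Or.inl ih
        · exact step (some e) _ ih hbc
    rcases key none h with h1 | ⟨e, he, _⟩
    · exact h1
    · simp at he

variable {N}
variable {K U W : Type} [Field K] [Fintype U] [Fintype W]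
  {A : Matrix U W K} {pos : U → ι → Bool} {neg : W → ι → Bool}

theorem rb_directed (N : Net V ι) {ρ : ℕ}
    (hρ : ∀ i, rb A pos neg (fun x => x i = true) ≤ ρ) {j : ℕ} (hj : N.size + 1 ≤ 2 ^ j) :
    rb A pos neg N.Directed ≤ (2 * (N.size + 1) + 1) ^ j * ρ := by
  have hlink : ∀ p q, rb A pos neg (fun x => N.link x p q) ≤ ρ := by
    intro p q
    by_cases hF : Relation.ReflTransGen (fun a b => (a, b) ∈ N.free) (N.after p) (N.before q)
    · cases q with
      | none =>
        refine le_trans (le_of_eq ((rb_congr fun x => ?_).trans (rb_const True))) (Nat.zero_le _)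
        exact ⟨fun _ => trivial, fun _ => ⟨hF, trivial⟩⟩
      | some e =>
        refine le_trans (le_of_eq (rb_congr fun x => ?_)) (hρ (N.wires.get e).2.2)
        exact ⟨fun h => h.2, fun h => ⟨hF, h⟩⟩
    · refine le_trans (le_of_eq ((rb_congr fun x => ?_).trans (rb_const False))) (Nat.zero_le _)
      exact ⟨fun h => hF h.1, fun h => h.elim⟩
  have hcard : Fintype.card (Option (Fin N.wires.length)) = N.size + 1 := by
    simp [Net.size]
  have h := rb_pw (A := A) (pos := pos) (neg := neg) (fun x => N.link x) hlink j none none
  rw [hcard] at h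
  refine le_trans (le_of_eq (rb_congr fun x => ?_)) h
  rw [N.directed_iff]
  exact ⟨fun h => pw_of_transGen (by rw [hcard]; exact hj) h, fun h => transGen_of_pw h⟩

end directed

end Pool.Agent.J6H7.Chain
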