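import Pool.Agent.J6H7.Chain.Flip
import Pool.Agent.J6H7.Chain.Dev

/-!
# From the rank measure to lower bounds for strategies
-/

set_option autoImplicit false

namespace Pool.Agent.J6H7.Chain

open Finset Matrix

/-- substitution of constants and of variables -/
def subst {ι κ : Type} (σ : ι → Bool ⊕ κ) (x : κ → Bool) (i : ι) : Bool :=
  match σ i with
  | Sum.inl c => c
  | Sum.inr q => x q

theorem subst_mono {ι κ : Type} (σ : ι → Bool ⊕ κ) {x y : κ → Bool} (h : x ≤ y) :
    subst σ x ≤ subst σ y := by
  intro i
  unfold subst
  split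
  · exact le_rfl
  · exact h _

theorem sum_succ_le_prod (l : List ℕ) : l.sum + 1 ≤ (l.map (· + 1)).prod := by
  induction l with
  | nil => simp
  | cons a l ih =>
    simp only [List.sum_cons, List.map_cons, List.prod_cons]
    calc a + l.sum + 1 ≤ (a + 1) * (l.sum + 1) := by nlinarith [Nat.zero_le (a * l.sum)]
      _ ≤ _ := Nat.mul_le_mul_left _ ih

/-- **The general lower bound.** If the part of the matrix `A` which belongs to a variable of `f`
has rank at most `ρ`, if a device with the property `p` can only reach rank `B` in this case, and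
if a strategy with few non-monotone questions computes a function `F` of which the disjunction of
`P` copies of `f` is a subfunction, then the rank of `A` is at most the number of questions plus
one, times `B`. -/
theorem master {K U W : Type} [Field K] [Fintype U] [Fintype W] {A : Matrix U W K}
    {D β ι : Type} {P : ℕ} (acc : D → (ι → Bool) → Prop)
    (hacc : ∀ d x y, x ≤ y → acc d x → acc d y) (f : (β → Bool) → Prop)
    (hf : ¬ f (fun _ => false)) (F : (ι → Bool) → Prop) (σ : ι → Bool ⊕ (Fin P × β))
    (hF : ∀ x : Fin P × β → Bool, F (subst σ x) ↔ ∃ j, f (fun b => x (j, b)))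
    {pos : U → β → Bool} {neg : W → β → Bool} (hpos : ∀ u, f (pos u)) (hneg : ∀ w, ¬ f (neg w))
    {ρ B : ℕ} (hρ : ∀ b, rb A pos neg (fun z => z b = true) ≤ ρ) {p : D → Prop}
    (hB : ∀ d, p d → ∀ (pos' : U → ι → Bool) (neg' : W → ι → Bool),
      (∀ i, rb A pos' neg' (fun z => z i = true) ≤ ρ) → rb A pos' neg' (acc d) ≤ B)
    {l : List ℕ} (hl : (l.map (· + 1)).prod ≤ P) (S : Strategy D l) (hp : S.All p)
    (hS : ∀ x, S.run acc x ↔ F x) : A.rank ≤ (l.sum + 1) * B := by
  classical
  have hrun : ∀ {l : List ℕ} (S : Strategy D l) (x : Fin P × β → Bool),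
      S.run (fun d x => acc d (subst σ x)) x ↔ S.run acc (subst σ x) := by
    intro l S
    induction S with
    | answer d => intro x; rfl
    | ask q next ih => intro x; exact ih _ x
  obtain ⟨j, x, ds, hlen, hds, hfz⟩ := transfer (fun d x => acc d (subst σ x))
    (fun d x y h => hacc d _ _ (subst_mono σ h)) f hf hl S hp
    (fun x => (hrun S x).trans ((hS _).trans (hF x)))
  let E : (β → Bool) → ι → Bool := fun z => subst σ (put x j z)
  have hvar : ∀ i, rb A (fun u => E (pos u)) (fun w => E (neg w)) (fun z => z i = true) ≤ ρ := by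
    intro i
    have hshow : rb A (fun u => E (pos u)) (fun w => E (neg w)) (fun z => z i = true) =
        rb A pos neg (fun z => E z i = true) := rfl
    rw [hshow]
    cases hi : σ i with
    | inl c =>
      refine le_trans (le_of_eq ((rb_congr fun z => ?_).trans (rb_const (c = true))))
        (Nat.zero_le _)
      simp [E, subst, hi]
    | inr q =>
      by_cases hq : q.1 = j
      · refine le_trans (le_of_eq (rb_congr fun z => ?_)) (hρ q.2)
        simp [E, subst, hi, put, hq]
      · refine le_trans (le_of_eq ((rb_congr fun z => ?_).trans (rb_const (x q = true))))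
          (Nat.zero_le _)
        simp [E, subst, hi, put, hq]
  have h1 : rb A pos neg f = rb A (fun u => E (pos u)) (fun w => E (neg w))
      (fun y => ∃ d ∈ ds, acc d y) := by
    have : f = fun z => ∃ d ∈ ds, acc d (E z) := funext fun z => propext (hfz z)
    rw [this]
    rfl
  have h2 := rb_exists_list_le (A := A) (pos := fun u => E (pos u)) (neg := fun w => E (neg w))
    ds acc (B := B) (fun d hd => hB d (hds d hd) _ _ hvar)
  rw [← h1, rb_full hpos hneg] at h2
  exact h2.trans (Nat.mul_le_mul_right _ hlen)

/-! ### monotonicity of the devices -/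

theorem Net.step_mono {V ι : Type} (N : Net V ι) {x y : ι → Bool} (h : x ≤ y) {a b : V}
    (hab : N.Step x a b) : N.Step y a b := by
  rcases hab with hab | ⟨i, h1, h2⟩
  · exact Or.inl hab
  · refine Or.inr ⟨i, h1, ?_⟩
    have := h i
    rw [h2] at this
    exact top_le_iff.1 this

theorem Net.directed_mono {V ι : Type} (N : Net V ι) {x y : ι → Bool} (h : x ≤ y)
    (hx : N.Directed x) : N.Directed y := by
  unfold Net.Directed at hx ⊢
  generalize N.t = t at hx ⊢
  induction hx with
  | refl => exact Relation.ReflTransGen.refl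
  | tail _ hbc ih => exact ih.tail (N.step_mono h hbc)

theorem Net.undirected_mono {V ι : Type} (N : Net V ι) {x y : ι → Bool} (h : x ≤ y)
    (hx : N.Undirected x) : N.Undirected y := by
  unfold Net.Undirected at hx ⊢
  generalize N.t = t at hx ⊢
  induction hx with
  | refl => exact Relation.ReflTransGen.refl
  | tail _ hbc ih => exact ih.tail (hbc.imp (N.step_mono h) (N.step_mono h))

theorem Span.accepts_mono {K κ ι : Type} [Field K] (S : Span K κ ι) {x y : ι → Bool} (h : x ≤ y)
    (hx : S.Accepts x) : S.Accepts y := by
  refine Submodule.span_mono ?_ hx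
  rintro v (hv | ⟨i, hv, hi⟩)
  · exact Or.inl hv
  · refine Or.inr ⟨i, hv, ?_⟩
    have := h i
    rw [hi] at this
    exact top_le_iff.1 this

end Pool.Agent.J6H7.Chain
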