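import Pool.Agent.H520R2.NM

/-!
# Small monotone circuits for acyclic path systems
-/

set_option autoImplicit false

namespace Pool.Agent.J6H7.Chain

open Finset Pool.Agent.H520R2 Pool.Agent.H520R2.NM

/-- Derivability in a path system: `s` is derivable, and if the variable `i` is true and the two
premises of the rule `R i` are derivable, then its conclusion is derivable. -/
inductive Gen {U ι : Type} (R : ι → U × U × U) (s : U) (x : ι → Bool) : U → Prop
  | start : Gen R s x s
  | rule (i : ι) : x i = true → Gen R s x (R i).1 → Gen R s x (R i).2.1 → Gen R s x (R i).2.2

variable {U ι : Type}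

theorem gen_iff {R : ι → U × U × U} {s : U} {x : ι → Bool} {u : U} (hu : u ≠ s) :
    Gen R s x u ↔ ∃ i, (R i).2.2 = u ∧ x i = true ∧ Gen R s x (R i).1 ∧ Gen R s x (R i).2.1 := by
  constructor
  · intro h
    cases h with
    | start => exact absurd rfl hu
    | rule i h1 h2 h3 => exact ⟨i, rfl, h1, h2, h3⟩
  · rintro ⟨i, rfl, h1, h2, h3⟩
    exact Gen.rule i h1 h2 h3

open Classical in
/-- the conjunctions which belong to a list of rules -/
theorem and_prog {R : ι → U × U × U} {s : U} {L : List ((ι → Bool) → Bool)}
    (hL : MProg (VB ι) L) (is : List ι)
    (h1 : ∀ i ∈ is, Av (VB ι) L (fun x => decide (Gen R s x (R i).1)))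
    (h2 : ∀ i ∈ is, Av (VB ι) L (fun x => decide (Gen R s x (R i).2.1))) :
    ∃ L', MProg (VB ι) (L' ++ L) ∧ L'.length ≤ 2 * is.length ∧ ∀ i ∈ is, Av (VB ι) (L' ++ L)
      (fun x => (x i && decide (Gen R s x (R i).1)) && decide (Gen R s x (R i).2.1)) := by
  induction is with
  | nil => exact ⟨[], by simpa using hL, by simp, by simp⟩
  | cons i is ih =>
    obtain ⟨L', hL', hlen, hav⟩ := ih (fun j hj => h1 j (List.mem_cons_of_mem _ hj))
      (fun j hj => h2 j (List.mem_cons_of_mem _ hj))
    have hv : Av (VB ι) (L' ++ L) (fun x => x i) := Or.inl (Or.inr ⟨i, rfl⟩)
    have p1 := MProg.and hL' hv ((h1 i List.mem_cons_self).mono L')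
    have p2 := MProg.and p1 (Or.inr List.mem_cons_self)
      (((h2 i List.mem_cons_self).mono L').cons _)
    refine ⟨_ :: _ :: L', p2, by simp only [List.length_cons]; omega, ?_⟩
    intro j hj
    rcases List.mem_cons.1 hj with rfl | hj
    · exact Or.inr List.mem_cons_self
    · exact ((hav j hj).cons _).cons _

open Classical in
/-- **Small circuits for acyclic path systems.** If the premises of every rule whose conclusion is
not the start have smaller rank than its conclusion, then derivability is computed by a monotone
circuit with at most three gates for each rule. -/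
theorem gen_circuit [Fintype U] [Fintype ι] (R : ι → U × U × U) (s : U) (r : U → ℕ)
    (hr : ∀ i, (R i).2.2 ≠ s → r (R i).1 < r (R i).2.2 ∧ r (R i).2.1 < r (R i).2.2) (t : U) :
    MComp (VB ι) (3 * Fintype.card ι) (fun x => decide (Gen R s x t)) := by
  have key : ∀ T : Finset U, (∀ u ∈ T, ∀ v, r v < r u → v ∈ T) →
      ∃ L, MProg (VB ι) L ∧ L.length ≤ 3 * (univ.filter fun i => (R i).2.2 ∈ T).card ∧
        ∀ u ∈ T, Av (VB ι) L (fun x => decide (Gen R s x u)) := by
    intro T
    induction T using Finset.induction_on_max_value r with
    | empty => intro _; exact ⟨[], MProg.nil, by simp, by simp⟩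
    | insert a T haT hmax ih =>
      intro hdown
      obtain ⟨L, hL, hlen, hav⟩ := ih (fun u hu v hv => by
        have h1 := hdown u (mem_insert_of_mem hu) v hv
        rcases mem_insert.1 h1 with rfl | h1
        · have := hmax u hu
          omega
        · exact h1)
      by_cases has : a = s
      · refine ⟨L, hL, hlen.trans (Nat.mul_le_mul_left 3 (card_le_card ?_)), ?_⟩
        · intro i hi
          rw [mem_filter] at hi ⊢
          exact ⟨hi.1, mem_insert_of_mem hi.2⟩
        · intro u hu
          rcases mem_insert.1 hu with rfl | hu
          · left; left
            refine ⟨true, funext fun x => ?_⟩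
            rw [decide_eq_true]
            rw [has]
            exact Gen.start
          · exact hav u hu
      · let is := (univ.filter fun i => (R i).2.2 = a).toList
        have his : ∀ i, i ∈ is ↔ (R i).2.2 = a := by
          intro i
          simp [is]
        have hbody : ∀ i ∈ is, (R i).1 ∈ T ∧ (R i).2.1 ∈ T := by
          intro i hi
          have h1 := (his i).1 hi
          have h2 := hr i (by rw [h1]; exact has)
          rw [h1] at h2
          constructor
          · rcases mem_insert.1 (hdown a (mem_insert_self _ _) _ h2.1) with h3 | h3
            · rw [h3] at h2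
              omega
            · exact h3
          · rcases mem_insert.1 (hdown a (mem_insert_self _ _) _ h2.2) with h3 | h3
            · rw [h3] at h2
              omega
            · exact h3
        obtain ⟨L1, hL1, hlen1, hav1⟩ := and_prog hL is (fun i hi => hav _ (hbody i hi).1)
          (fun i hi => hav _ (hbody i hi).2)
        obtain ⟨L2, hL2, hlen2, hav2⟩ := or_prog hL1 (fun _ => false)
          (Or.inl (Or.inl ⟨false, rfl⟩))
          (is.map fun i => fun x =>
            (x i && decide (Gen R s x (R i).1)) && decide (Gen R s x (R i).2.1)) (by
            intro g hg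
            rw [List.mem_map] at hg
            obtain ⟨i, hi, rfl⟩ := hg
            exact hav1 i hi)
        refine ⟨_, hL2, ?_, ?_⟩
        · rw [List.length_map] at hlen2
          have hislen : is.length = (univ.filter fun i => (R i).2.2 = a).card :=
            Finset.length_toList _
          have hcard : (univ.filter fun i => (R i).2.2 ∈ insert a T).card =
              (univ.filter fun i => (R i).2.2 = a).card +
              (univ.filter fun i => (R i).2.2 ∈ T).card := by
            rw [← card_union_of_disjoint]
            · congr 1
              ext i
              simp [mem_insert]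
            · rw [disjoint_filter]
              intro i _ h1 h2
              exact haT (by rw [← h1]; exact h2)
          simp only [List.length_append]
          rw [hcard]
          omega
        · intro u hu
          rcases mem_insert.1 hu with rfl | hu
          · have : (fun x => decide (Gen R s x u)) = (fun x => (fun _ => false) x ||
                (is.map fun i => fun x : ι → Bool =>
                  (x i && decide (Gen R s x (R i).1)) && decide (Gen R s x (R i).2.1)).any
                  (fun g => g x)) := by
              funext x
              rw [Bool.eq_iff_iff]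
              simp only [decide_eq_true_eq, Bool.false_or, List.any_map, List.any_eq_true,
                Function.comp_apply, Bool.and_eq_true]
              rw [gen_iff has]
              constructor
              · rintro ⟨i, h1, h2, h3, h4⟩
                exact ⟨i, (his i).2 h1, ⟨h2, h3⟩, h4⟩
              · rintro ⟨i, h1, ⟨h2, h3⟩, h4⟩
                exact ⟨i, (his i).1 h1, h2, h3, h4⟩
            rw [this]
            exact hav2
          · have := ((hav u hu).mono L1).mono L2
            exact this
  obtain ⟨L, hL, hlen, hav⟩ := key univ (fun _ _ _ _ => mem_univ _)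
  refine ⟨L, hL, hlen.trans ?_, hav t (mem_univ _)⟩
  exact Nat.mul_le_mul_left 3 (card_le_univ _)

end Pool.Agent.J6H7.Chain
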