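import Mathlib

/-!
# Networks, span programs, strategies with few non-monotone questions: definitions

* `Net V ι`: a contact network with node set `V` and wires labelled by the variables `ι`. It is
  monotone: the wires are labelled by variables only, never by negated variables. Read as an
  undirected network it is a (monotone) switching network, the nonuniform model of logarithmic
  space; read as a directed network it is a (monotone) rectifier network, that is a
  nondeterministic branching program, the nonuniform model of nondeterministic logarithmic space.
* `Strategy D l`: a computation which asks `l.length` rounds of questions, in the `i`-th round
  `l[i]` questions in parallel; each question is whether a device (an element of `D`) accepts the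
  input, and the questions may depend in an arbitrary way on the answers received before. In the
  end the answer is given by a device, which again depends in an arbitrary way on all the answers.
-/

set_option autoImplicit false

namespace Pool.Agent.J6H7.Chain

/-- A contact network over the variables `ι` with node set `V`, source `s` and target `t`. A wire
`(a, b, i)` leads from `a` to `b` and conducts if the variable `i` is true. A free wire `(a, b)`
conducts always. -/
structure Net (V ι : Type) where
  /-- the source -/
  s : V
  /-- the target -/
  t : V
  /-- the free wires -/
  free : List (V × V)
  /-- the wires which are labelled by variables -/
  wires : List (V × V × ι)

namespace Net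

variable {V ι : Type}

/-- There is a conducting wire from `a` to `b`. -/
def Step (N : Net V ι) (x : ι → Bool) (a b : V) : Prop :=
  (a, b) ∈ N.free ∨ ∃ i, (a, b, i) ∈ N.wires ∧ x i = true

/-- The target can be reached from the source along conducting wires, which are used in the
forward direction only. -/
def Directed (N : Net V ι) (x : ι → Bool) : Prop :=
  Relation.ReflTransGen (N.Step x) N.s N.t

/-- The target can be reached from the source along conducting wires, which may be used in both
directions. -/
def Undirected (N : Net V ι) (x : ι → Bool) : Prop :=
  Relation.ReflTransGen (fun a b => N.Step x a b ∨ N.Step x b a) N.s N.t

/-- The size: the number of labelled wires. (The free wires and the nodes are not counted.) -/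
def size (N : Net V ι) : ℕ := N.wires.length

end Net

/-- A monotone span program over the field `K` in the coordinates `κ` with the variables `ι`. -/
structure Span (K κ ι : Type) where
  /-- the target vector -/
  target : κ → K
  /-- the vectors which are always available -/
  free : List (κ → K)
  /-- the vectors which are labelled by variables -/
  vecs : List ((κ → K) × ι)

namespace Span

variable {K κ ι : Type} [Field K]

/-- The program accepts `x` if the target is a linear combination of the free vectors and of the
vectors whose variables are true. -/
def Accepts (S : Span K κ ι) (x : ι → Bool) : Prop :=
  S.target ∈ Submodule.span K {v : κ → K | v ∈ S.free ∨ ∃ i, (v, i) ∈ S.vecs ∧ x i = true}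

/-- The size: the number of labelled vectors. (The free vectors and the dimension are not
counted.) -/
def size (S : Span K κ ι) : ℕ := S.vecs.length

end Span

/-- A strategy over a type `D` of devices. The list `l` contains the numbers of questions of the
rounds. The questions of a round are asked in parallel; what is asked, and the device which
determines the final answer, depend in an arbitrary way on the answers received before. -/
inductive Strategy (D : Type) : List ℕ → Type
  | answer (d : D) : Strategy D []
  | ask {w : ℕ} {l : List ℕ} (q : Fin w → D) (next : (Fin w → Bool) → Strategy D l) :
      Strategy D (w :: l)

namespace Strategy

variable {D ι : Type}

open Classical in
/-- The answer of the strategy on the input `x`; `acc d x` says that the device `d` accepts `x`. -/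
noncomputable def run (acc : D → (ι → Bool) → Prop) :
    {l : List ℕ} → Strategy D l → (ι → Bool) → Prop
  | _, answer d, x => acc d x
  | _, ask q next, x => (next fun j => decide (acc (q j) x)).run acc x

/-- All the devices which may be used by the strategy have the property `p`. -/
def All (p : D → Prop) : {l : List ℕ} → Strategy D l → Prop
  | _, answer d => p d
  | _, ask q next => (∀ j, p (q j)) ∧ ∀ a, (next a).All p

end Strategy

end Pool.Agent.J6H7.Chain
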