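import Pool.Agent.J6H7.Chain.Master

/-!
# Networks in which few variables are negated
-/

set_option autoImplicit false

namespace Pool.Agent.J6H7.Chain

open Finset Matrix

variable {V ι : Type}

/-- The literals: `Sum.inl i` is the variable `i`, `Sum.inr i` is the negation of the
variable `i`. -/
def lit (x : ι → Bool) : ι ⊕ ι → Bool := Sum.elim x (fun i => !x i)

/-- The variables which are negated in the network are given the values `a`. -/
def Net.fix (N : Net V (ι ⊕ ι)) (a : ι → Bool) : Net V ι where
  s := N.s
  t := N.t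
  free := N.free ++ N.wires.filterMap fun e => match e.2.2 with
    | Sum.inl _ => none
    | Sum.inr i => if a i then none else some (e.1, e.2.1)
  wires := N.wires.filterMap fun e => match e.2.2 with
    | Sum.inl i => some (e.1, e.2.1, i)
    | Sum.inr _ => none

theorem Net.fix_size (N : Net V (ι ⊕ ι)) (a : ι → Bool) : (N.fix a).size ≤ N.size :=
  List.length_filterMap_le _ _

theorem Net.fix_step (N : Net V (ι ⊕ ι)) {a x : ι → Bool}
    (h : ∀ e ∈ N.wires, ∀ i, e.2.2 = Sum.inr i → a i = x i) (u v : V) :
    (N.fix a).Step x u v ↔ N.Step (lit x) u v := by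
  constructor
  · rintro (h1 | ⟨i, h1, h2⟩)
    · simp only [Net.fix, List.mem_append, List.mem_filterMap] at h1
      rcases h1 with h1 | ⟨⟨b, c, j⟩, h1, h2⟩
      · exact Or.inl h1
      · cases j with
        | inl j => simp at h2
        | inr j =>
          simp only at h2
          split_ifs at h2 with h3
          simp only [Option.some.injEq, Prod.mk.injEq] at h2
          obtain ⟨rfl, rfl⟩ := h2
          refine Or.inr ⟨Sum.inr j, h1, ?_⟩
          have := h _ h1 j rfl
          rw [Bool.not_eq_true] at h3
          simp [lit, ← this, h3]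
    · simp only [Net.fix, List.mem_filterMap] at h1
      obtain ⟨⟨b, c, j⟩, h1, h3⟩ := h1
      cases j with
      | inl j =>
        simp only [Option.some.injEq, Prod.mk.injEq] at h3
        obtain ⟨rfl, rfl, rfl⟩ := h3
        exact Or.inr ⟨Sum.inl j, h1, h2⟩
      | inr j => simp at h3
  · rintro (h1 | ⟨i, h1, h2⟩)
    · exact Or.inl (List.mem_append_left _ h1)
    · cases i with
      | inl i =>
        refine Or.inr ⟨i, ?_, h2⟩
        simp only [Net.fix, List.mem_filterMap]
        exact ⟨_, h1, rfl⟩
      | inr i =>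
        left
        simp only [Net.fix, List.mem_append, List.mem_filterMap]
        right
        refine ⟨_, h1, ?_⟩
        have := h _ h1 i rfl
        simp only [lit, Sum.elim_inr, Bool.not_eq_true'] at h2
        simp [this, h2]

theorem Net.fix_directed (N : Net V (ι ⊕ ι)) {a x : ι → Bool}
    (h : ∀ e ∈ N.wires, ∀ i, e.2.2 = Sum.inr i → a i = x i) :
    (N.fix a).Directed x ↔ N.Directed (lit x) := by
  have : (N.fix a).Step x = N.Step (lit x) :=
    funext fun u => funext fun v => propext (N.fix_step h u v)
  unfold Net.Directed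
  rw [this]
  rfl

theorem Net.fix_undirected (N : Net V (ι ⊕ ι)) {a x : ι → Bool}
    (h : ∀ e ∈ N.wires, ∀ i, e.2.2 = Sum.inr i → a i = x i) :
    (N.fix a).Undirected x ↔ N.Undirected (lit x) := by
  have : (N.fix a).Step x = N.Step (lit x) :=
    funext fun u => funext fun v => propext (N.fix_step h u v)
  unfold Net.Undirected
  rw [this]
  rfl

/-- devices: networks and variables -/
def accDev (acc : Net V ι → (ι → Bool) → Prop) : Net V ι ⊕ ι → (ι → Bool) → Prop
  | Sum.inl N, x => acc N x
  | Sum.inr i, x => x i = true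

theorem accDev_mono {acc : Net V ι → (ι → Bool) → Prop}
    (hacc : ∀ d x y, x ≤ y → acc d x → acc d y) :
    ∀ d x y, x ≤ y → accDev acc d x → accDev acc d y := by
  rintro (d | i) x y h hx
  · exact hacc d x y h hx
  · have := h i
    simp only [accDev] at hx
    rw [hx] at this
    exact top_le_iff.1 this

open Classical in
/-- The strategy which asks for the variables in `Z` in one round. -/
noncomputable def litStrategy (N : Net V (ι ⊕ ι)) (Z : Finset ι) :
    Strategy (Net V ι ⊕ ι) [Z.card] :=
  Strategy.ask (fun j => Sum.inr (Z.equivFin.symm j).1) fun a =>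
    Strategy.answer (Sum.inl (N.fix fun i => if h : i ∈ Z then a (Z.equivFin ⟨i, h⟩) else false))

theorem litStrategy_run {acc : Net V ι → (ι → Bool) → Prop}
    {acc' : Net V (ι ⊕ ι) → (ι ⊕ ι → Bool) → Prop} (N : Net V (ι ⊕ ι)) (Z : Finset ι)
    (hZ : ∀ e ∈ N.wires, ∀ i, e.2.2 = Sum.inr i → i ∈ Z)
    (h : ∀ a x : ι → Bool, (∀ e ∈ N.wires, ∀ i, e.2.2 = Sum.inr i → a i = x i) →
      (acc (N.fix a) x ↔ acc' N (lit x))) (x : ι → Bool) :
    (litStrategy N Z).run (accDev acc) x ↔ acc' N (lit x) := by
  classical
  unfold litStrategy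
  simp only [Strategy.run, accDev]
  refine h _ x ?_
  intro e he i hi
  have := hZ e he i hi
  rw [dif_pos this]
  simp

theorem litStrategy_all (N : Net V (ι ⊕ ι)) (Z : Finset ι) {s : ℕ} (hs : N.size ≤ s) :
    (litStrategy N Z).All (fun d => match d with
      | Sum.inl N' => N'.size ≤ s
      | Sum.inr _ => True) := by
  unfold litStrategy
  simp only [Strategy.All, implies_true, true_and]
  intro a
  exact (N.fix_size _).trans hs

end Pool.Agent.J6H7.Chain
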