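import Pool.Agent.J6H7.Chain.Grid
import Pool.Agent.J6H7.Chain.Circ
import Pool.Agent.J6H7.Chain.Lit

/-!
# Path systems on a grid
-/

set_option autoImplicit false

namespace Pool.Agent.J6H7.Chain

open Finset Matrix

/-- the elements of `P` copies of the path system -/
inductive GNode (P G k : ℕ) : Type
  | src : GNode P G k
  | tgt : GNode P G k
  | nd (p : Fin P) (v : Fin (G + 1) × Fin (G + 1)) (i : Fin k) : GNode P G k
  deriving DecidableEq

/-- the rules of one copy -/
inductive GRule (G k : ℕ) : Type
  | row (b : Fin (G + 1)) (l : Fin k) : GRule G k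
  | col (a : Fin G) (l : Fin k) : GRule G k
  | mid (a b : Fin G) (i j l : Fin k) : GRule G k
  | goal (l : Fin k) : GRule G k
  deriving DecidableEq

variable {P G k : ℕ}

/-- the rule as a triple: the two premises and the conclusion -/
def gtrip : Fin P × GRule G k → GNode P G k × GNode P G k × GNode P G k
  | (p, .row b l) => (.src, .src, .nd p (0, b) l)
  | (p, .col a l) => (.src, .src, .nd p (a.succ, 0) l)
  | (p, .mid a b i j l) => (.nd p (a.castSucc, b.succ) i, .nd p (a.succ, b.castSucc) j,
      .nd p (a.succ, b.succ) l)
  | (p, .goal l) => (.nd p (Fin.last G, Fin.last G) l, .nd p (Fin.last G, Fin.last G) l, .tgt)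

/-- derivability of the target from the rules of all the copies -/
def GReach (x : Fin P × GRule G k → Bool) : Prop := Gen gtrip .src x .tgt

/-- derivability of the target in one copy -/
def GReach1 (z : GRule G k → Bool) : Prop := GReach (P := 1) (fun q => z q.2)

theorem greach_iff (x : Fin P × GRule G k → Bool) :
    GReach x ↔ ∃ p, GReach1 (fun e => x (p, e)) := by
  constructor
  · intro h
    have key : ∀ b, Gen gtrip .src x b → b = .src ∨
        (b = .tgt ∧ ∃ p, GReach1 (fun e => x (p, e))) ∨
        ∃ p v i, b = .nd p v i ∧ Gen (gtrip (P := 1)) .src (fun q => x (p, q.2)) (.nd 0 v i) := by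
      intro b hb
      induction hb with
      | start => exact Or.inl rfl
      | rule q hx h1 h2 ih1 ih2 =>
        obtain ⟨p, e⟩ := q
        cases e with
        | row b l =>
          right; right
          exact ⟨p, (0, b), l, rfl, Gen.rule (R := gtrip (P := 1)) (x := fun q => x (p, q.2))
            (0, .row b l) hx Gen.start Gen.start⟩
        | col a l =>
          right; right
          exact ⟨p, (a.succ, 0), l, rfl, Gen.rule (R := gtrip (P := 1))
            (x := fun q => x (p, q.2)) (0, .col a l) hx Gen.start Gen.start⟩
        | mid a b i j l =>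
          right; right
          refine ⟨p, (a.succ, b.succ), l, rfl, Gen.rule (R := gtrip (P := 1))
            (x := fun q => x (p, q.2)) (0, .mid a b i j l) hx ?_ ?_⟩
          · rcases ih1 with ih1 | ⟨ih1, _⟩ | ⟨p', v', i', ih1, ih1'⟩
            · simp [gtrip] at ih1
            · simp [gtrip] at ih1
            · simp only [gtrip, GNode.nd.injEq] at ih1
              obtain ⟨rfl, rfl, rfl⟩ := ih1
              exact ih1'
          · rcases ih2 with ih2 | ⟨ih2, _⟩ | ⟨p', v', i', ih2, ih2'⟩
            · simp [gtrip] at ih2
            · simp [gtrip] at ih2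
            · simp only [gtrip, GNode.nd.injEq] at ih2
              obtain ⟨rfl, rfl, rfl⟩ := ih2
              exact ih2'
        | goal l =>
          right; left
          refine ⟨rfl, p, ?_⟩
          rcases ih1 with ih1 | ⟨ih1, _⟩ | ⟨p', v', i', ih1, ih1'⟩
          · simp [gtrip] at ih1
          · simp [gtrip] at ih1
          · simp only [gtrip, GNode.nd.injEq] at ih1
            obtain ⟨rfl, rfl, rfl⟩ := ih1
            exact Gen.rule (R := gtrip (P := 1)) (x := fun q => x (p, q.2)) (0, .goal l) hx
              ih1' ih1'
    rcases key _ h with h | ⟨_, h⟩ | ⟨p, v, i, h, _⟩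
    · simp at h
    · exact h
    · simp at h
  · rintro ⟨p, h⟩
    let g : GNode 1 G k → GNode P G k := fun b => match b with
      | .src => .src
      | .tgt => .tgt
      | .nd _ v i => .nd p v i
    have key : ∀ b, Gen (gtrip (P := 1)) .src (fun q => x (p, q.2)) b →
        Gen gtrip .src x (g b) := by
      intro b hb
      induction hb with
      | start => exact Gen.start
      | rule q hx h1 h2 ih1 ih2 =>
        obtain ⟨p', e⟩ := q
        cases e with
        | row b l => exact Gen.rule (R := gtrip) (p, GRule.row b l) hx ih1 ih2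
        | col a l => exact Gen.rule (R := gtrip) (p, GRule.col a l) hx ih1 ih2
        | mid a b i j l => exact Gen.rule (R := gtrip) (p, GRule.mid a b i j l) hx ih1 ih2
        | goal l => exact Gen.rule (R := gtrip) (p, GRule.goal l) hx ih1 ih2
    exact key _ h

/-- the rules which agree with `u` -/
def gpos (u : Fin (G + 1) × Fin (G + 1) → Fin k) : GRule G k → Bool
  | .row b l => decide (u (0, b) = l)
  | .col a l => decide (u (a.succ, 0) = l)
  | .mid a b i j l => decide (u (a.castSucc, b.succ) = i) && decide (u (a.succ, b.castSucc) = j)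
      && decide (u (a.succ, b.succ) = l)
  | .goal l => decide (u (Fin.last G, Fin.last G) = l)

/-- the rules under which the set `w` is closed -/
def gneg (w : (Fin (G + 1) × Fin (G + 1)) × Fin k → Bool) : GRule G k → Bool
  | .row b l => w ((0, b), l)
  | .col a l => w ((a.succ, 0), l)
  | .mid a b i j l => !(w ((a.castSucc, b.succ), i) && w ((a.succ, b.castSucc), j)) ||
      w ((a.succ, b.succ), l)
  | .goal l => !w ((Fin.last G, Fin.last G), l)

theorem greach_pos (u : Fin (G + 1) × Fin (G + 1) → Fin k) : GReach1 (gpos u) := by
  have key : ∀ (m : ℕ) (v : Fin (G + 1) × Fin (G + 1)), v.1.1 + v.2.1 ≤ m →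
      Gen (gtrip (P := 1)) .src (fun q => gpos u q.2) (.nd 0 v (u v)) := by
    intro m
    induction m with
    | zero =>
      rintro ⟨a, b⟩ hv
      have ha : a = 0 := Fin.ext (by
        simp only [Nat.le_zero, Nat.add_eq_zero_iff] at hv
        rw [hv.1]
        rfl)
      subst ha
      exact Gen.rule (R := gtrip (P := 1)) (x := fun q => gpos u q.2)
        (0, .row b (u (0, b))) (by simp [gpos]) Gen.start Gen.start
    | succ m ih =>
      rintro ⟨a, b⟩ hv
      induction a using Fin.cases with
      | zero =>
        exact Gen.rule (R := gtrip (P := 1)) (x := fun q => gpos u q.2)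
          (0, .row b (u (0, b))) (by simp [gpos]) Gen.start Gen.start
      | succ a =>
        induction b using Fin.cases with
        | zero =>
          exact Gen.rule (R := gtrip (P := 1)) (x := fun q => gpos u q.2)
            (0, .col a (u (a.succ, 0))) (by simp [gpos]) Gen.start Gen.start
        | succ b =>
          simp only [Fin.val_succ] at hv
          exact Gen.rule (R := gtrip (P := 1)) (x := fun q => gpos u q.2)
            (0, .mid a b (u (a.castSucc, b.succ)) (u (a.succ, b.castSucc)) (u (a.succ, b.succ)))
            (by simp [gpos])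
            (ih (a.castSucc, b.succ) (by simp only [Fin.val_castSucc, Fin.val_succ]; omega))
            (ih (a.succ, b.castSucc) (by simp only [Fin.val_castSucc, Fin.val_succ]; omega))
  have h := key _ (Fin.last G, Fin.last G) le_rfl
  exact Gen.rule (R := gtrip (P := 1)) (x := fun q => gpos u q.2)
    (0, .goal (u (Fin.last G, Fin.last G))) (by simp [gpos]) h h

theorem not_greach_neg (w : (Fin (G + 1) × Fin (G + 1)) × Fin k → Bool) :
    ¬ GReach1 (gneg w) := by
  intro h
  have key : ∀ b : GNode 1 G k, Gen (gtrip (P := 1)) .src (fun q => gneg w q.2) b →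
      b = .src ∨ ∃ p v i, b = .nd p v i ∧ w (v, i) = true := by
    intro b hb
    induction hb with
    | start => exact Or.inl rfl
    | rule q hx h1 h2 ih1 ih2 =>
      obtain ⟨p, e⟩ := q
      cases e with
      | row b l => exact Or.inr ⟨p, (0, b), l, rfl, hx⟩
      | col a l => exact Or.inr ⟨p, (a.succ, 0), l, rfl, hx⟩
      | mid a b i j l =>
        right
        refine ⟨p, (a.succ, b.succ), l, rfl, ?_⟩
        rcases ih1 with ih1 | ⟨p', v', i', ih1, ih1'⟩
        · simp [gtrip] at ih1
        rcases ih2 with ih2 | ⟨p'', v'', i'', ih2, ih2'⟩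
        · simp [gtrip] at ih2
        simp only [gtrip, GNode.nd.injEq] at ih1 ih2
        obtain ⟨rfl, rfl, rfl⟩ := ih1
        obtain ⟨rfl, rfl, rfl⟩ := ih2
        simpa [gneg, ih1', ih2'] using hx
      | goal l =>
        rcases ih1 with ih1 | ⟨p', v', i', ih1, ih1'⟩
        · simp [gtrip] at ih1
        simp only [gtrip, GNode.nd.injEq] at ih1
        obtain ⟨rfl, rfl, rfl⟩ := ih1
        simp [gneg, ih1'] at hx
  rcases key _ h with h | ⟨p, v, i, h, _⟩
  · simp at h
  · simp at h

theorem not_greach_false : ¬ GReach1 (fun _ : GRule G k => false) := by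
  intro h
  unfold GReach1 GReach at h
  obtain ⟨i, _, hx, _⟩ := (gen_iff (by simp)).1 h
  simp at hx

/-- the rules as a sum type -/
def gequiv : GRule G k ≃ ((Fin (G + 1) × Fin k) ⊕ (Fin G × Fin k)) ⊕
    ((Fin G × Fin G × Fin k × Fin k × Fin k) ⊕ Fin k) where
  toFun
    | .row b l => Sum.inl (Sum.inl (b, l))
    | .col a l => Sum.inl (Sum.inr (a, l))
    | .mid a b i j l => Sum.inr (Sum.inl (a, b, i, j, l))
    | .goal l => Sum.inr (Sum.inr l)
  invFun
    | Sum.inl (Sum.inl (b, l)) => .row b l
    | Sum.inl (Sum.inr (a, l)) => .col a l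
    | Sum.inr (Sum.inl (a, b, i, j, l)) => .mid a b i j l
    | Sum.inr (Sum.inr l) => .goal l
  left_inv := by rintro (_ | _ | _ | _) <;> rfl
  right_inv := by rintro ((⟨_, _⟩ | ⟨_, _⟩) | (⟨_, _, _, _, _⟩ | _)) <;> rfl

instance : Fintype (GRule G k) := Fintype.ofEquiv _ gequiv.symm

theorem card_grule : Fintype.card (GRule G k) =
    (G + 1) * k + G * k + (G * (G * (k * (k * k))) + k) := by
  rw [Fintype.card_congr gequiv]
  simp

/-- the elements as an option type -/
def gnequiv : GNode P G k ≃ Option (Option (Fin P × (Fin (G + 1) × Fin (G + 1)) × Fin k)) where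
  toFun
    | .src => none
    | .tgt => some none
    | .nd p v i => some (some (p, v, i))
  invFun
    | none => .src
    | some none => .tgt
    | some (some (p, v, i)) => .nd p v i
  left_inv := by rintro (_ | _ | _) <;> rfl
  right_inv := by rintro (_ | _ | ⟨_, _, _⟩) <;> rfl

instance : Fintype (GNode P G k) := Fintype.ofEquiv _ gnequiv.symm

theorem card_gnode : Fintype.card (GNode P G k) = P * ((G + 1) * (G + 1) * k) + 1 + 1 := by
  rw [Fintype.card_congr gnequiv]
  simp

/-- **The rank of the part of the matrix which belongs to a rule.** -/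
theorem rb_grule {K : Type} [Field K] (hG : 1 ≤ G) (e : GRule G k) :
    rb (pebMat K (gridPr (G + 1)) G k) gpos gneg (fun z => z e = true) ≤
      ((G + 1) * (G + 1)).choose G * k ^ ((G + 1) * (G + 1) - (G + 1)) := by
  have h := rb_var_le (K := K) (V := Fin (G + 1) × Fin (G + 1)) (k := k)
    (pr := gridPr (G + 1)) (d := G) (fun v => gridPr_irrefl v) (Fin.last G, Fin.last G)
    (fun S hS => grid_pebbled rfl hG hS (Fin.last G, Fin.last G) (by simp) (by simp))
    gpos gneg e ?_
  · simpa using h
  · cases e with
    | row b l =>
      right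
      refine ⟨(0, b), l, ?_, ?_, ?_⟩
      · intro x hx
        simpa [gpos] using hx
      · intro y hy
        simpa [gneg] using hy
      · intro x y _ _ u hu
        rw [gridPr_eq_empty (Or.inl rfl)] at hu
        simp at hu
    | col a l =>
      right
      refine ⟨(a.succ, 0), l, ?_, ?_, ?_⟩
      · intro x hx
        simpa [gpos] using hx
      · intro y hy
        simpa [gneg] using hy
      · intro x y _ _ u hu
        rw [gridPr_eq_empty (Or.inr rfl)] at hu
        simp at hu
    | mid a b i j l =>
      right
      refine ⟨(a.succ, b.succ), l, ?_, ?_, ?_⟩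
      · intro x hx
        simp only [gpos, Bool.and_eq_true, decide_eq_true_eq] at hx
        exact hx.2
      · intro y hy
        simp only [gneg, Bool.or_eq_false_iff] at hy
        exact hy.2
      · intro x y hx hy u hu
        simp only [gpos, Bool.and_eq_true, decide_eq_true_eq] at hx
        simp only [gneg, Bool.or_eq_false_iff, Bool.not_eq_false', Bool.and_eq_true] at hy
        rw [mem_gridPr] at hu
        obtain ⟨_, _, hu⟩ := hu
        obtain ⟨u1, u2⟩ := u
        simp only [Fin.val_succ, add_left_inj] at hu
        rcases hu with ⟨h1, h2⟩ | ⟨h1, h2⟩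
        · have h1' : u1 = a.castSucc := Fin.ext h1
          rw [h1', h2, hx.1.1]
          exact hy.1.1
        · have h2' : u2 = b.castSucc := Fin.ext h2
          rw [h2', h1, hx.1.2]
          exact hy.1.2
    | goal l =>
      left
      intro x y hx hy
      simp only [gpos, decide_eq_true_eq] at hx
      simp only [gneg, Bool.not_eq_false'] at hy
      rw [hx]
      exact hy

end Pool.Agent.J6H7.Chain
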