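import Pool.Agent.J6H7.Chain.Peb

/-!
# The reversible pebble game on a grid

The sources are the nodes of the first row and of the first column; the last node of the grid with
side `n` cannot be reached with fewer than `n` pebbles.
-/

set_option autoImplicit false
set_option linter.unusedSectionVars false

namespace Pool.Agent.J6H7.Chain

open Finset

section general

variable {V : Type} [Fintype V] [DecidableEq V]

/-- There is a path from the node to `t` which avoids `S`. -/
inductive Co (pr : V → Finset V) (t : V) (S : Finset V) : V → Prop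
  | base : t ∉ S → Co pr t S t
  | step {u u' : V} : u ∉ S → u ∈ pr u' → Co pr t S u' → Co pr t S u

variable {pr : V → Finset V} {t : V} {S : Finset V}

theorem Co.add {v : V} (hv : pr v ⊆ S) {u : V} (h : Co pr t S u) (huv : u ≠ v) :
    Co pr t (insert v S) u := by
  induction h with
  | base h => exact Co.base (by simp [h, huv])
  | @step u u' h1 h2 _ ih =>
    refine Co.step (by simp [h1, huv]) h2 (ih ?_)
    rintro rfl
    exact h1 (hv h2)

theorem Co.anti {S' : Finset V} (hS : S' ⊆ S) {u : V} (h : Co pr t S u) : Co pr t S' u := by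
  induction h with
  | base h => exact Co.base (fun h' => h (hS h'))
  | step h1 h2 _ ih => exact Co.step (fun h' => h1 (hS h')) h2 ih

theorem Co.target {u : V} (h : Co pr t S u) : t ∉ S := by
  induction h with
  | base h => exact h
  | step _ _ _ ih => exact ih

/-- a path crosses all the levels -/
theorem Co.cross (r : V → ℕ) (hr : ∀ u u', u ∈ pr u' → r u' ≤ r u + 1) {u : V}
    (h : Co pr t S u) {a : ℕ} (h1 : r u ≤ a) (h2 : a ≤ r t) : ∃ u', r u' = a ∧ Co pr t S u' := by
  induction h with
  | base h => exact ⟨t, le_antisymm h1 h2, Co.base h⟩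
  | @step u u' h3 h4 h5 ih =>
    by_cases hu : r u = a
    · exact ⟨u, hu, Co.step h3 h4 h5⟩
    · have := hr u u' h4
      exact ih (by omega)

end general

/-- the predecessors of the nodes of the grid -/
def gridPr (n : ℕ) (v : Fin n × Fin n) : Finset (Fin n × Fin n) :=
  univ.filter fun u => 0 < v.1.1 ∧ 0 < v.2.1 ∧
    ((u.1.1 + 1 = v.1.1 ∧ u.2 = v.2) ∨ (u.1 = v.1 ∧ u.2.1 + 1 = v.2.1))

theorem mem_gridPr {n : ℕ} {u v : Fin n × Fin n} : u ∈ gridPr n v ↔ 0 < v.1.1 ∧ 0 < v.2.1 ∧
    ((u.1.1 + 1 = v.1.1 ∧ u.2 = v.2) ∨ (u.1 = v.1 ∧ u.2.1 + 1 = v.2.1)) := by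
  simp [gridPr]

theorem gridPr_irrefl {n : ℕ} (v : Fin n × Fin n) : v ∉ gridPr n v := by
  rw [mem_gridPr]
  rintro ⟨_, _, h | h⟩ <;> omega

theorem gridPr_eq_empty {n : ℕ} {v : Fin n × Fin n} (h : v.1.1 = 0 ∨ v.2.1 = 0) :
    gridPr n v = ∅ := by
  rw [Finset.eq_empty_iff_forall_notMem]
  intro u hu
  rw [mem_gridPr] at hu
  omega

theorem Co.row {n : ℕ} {t : Fin n × Fin n} {S : Finset (Fin n × Fin n)} {a : Fin n}
    (ha : 0 < a.1) (hS : ∀ u ∈ S, u.1 ≠ a) : ∀ (c : ℕ) (hc : c < n),
    Co (gridPr n) t S (a, ⟨c, hc⟩) → Co (gridPr n) t S (a, ⟨0, by omega⟩)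
  | 0, _, h => h
  | c + 1, hc, h => by
    refine Co.row ha hS c (by omega) (Co.step ?_ ?_ h)
    · exact fun hmem => hS _ hmem rfl
    · rw [mem_gridPr]
      exact ⟨ha, by simp, Or.inr ⟨rfl, rfl⟩⟩

theorem Co.col {n : ℕ} {t : Fin n × Fin n} {S : Finset (Fin n × Fin n)} {a : Fin n}
    (ha : 0 < a.1) (hS : ∀ u ∈ S, u.2 ≠ a) : ∀ (c : ℕ) (hc : c < n),
    Co (gridPr n) t S (⟨c, hc⟩, a) → Co (gridPr n) t S (⟨0, by omega⟩, a)
  | 0, _, h => h
  | c + 1, hc, h => by
    refine Co.col ha hS c (by omega) (Co.step ?_ ?_ h)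
    · exact fun hmem => hS _ hmem rfl
    · rw [mem_gridPr]
      exact ⟨by simp, ha, Or.inl ⟨rfl, rfl⟩⟩

theorem exists_free {n : ℕ} {S : Finset (Fin n × Fin n)} (hS : S.card + 2 ≤ n)
    (r : Fin n × Fin n → Fin n) : ∃ a : Fin n, 0 < a.1 ∧ ∀ u ∈ S, r u ≠ a := by
  by_contra hcon
  push Not at hcon
  have hsub : (univ.filter fun a : Fin n => 0 < a.1) ⊆ S.image r := by
    intro a ha
    rw [mem_filter] at ha
    obtain ⟨u, hu, hua⟩ := hcon a ha.2
    exact mem_image.2 ⟨u, hu, hua⟩
  have h1 := card_le_card hsub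
  have h2 : (univ.filter fun a : Fin n => 0 < a.1).card = n - 1 := by
    have h3 : (univ.filter fun a : Fin n => 0 < a.1) = univ.erase ⟨0, by omega⟩ := by
      ext a
      simp only [mem_filter, mem_univ, true_and, mem_erase, and_true]
      constructor
      · rintro h rfl
        simp at h
      · intro h
        by_contra h'
        exact h (Fin.ext (by simp only; omega))
    rw [h3, card_erase_of_mem (mem_univ _), card_univ, Fintype.card_fin]
  have h3 := card_image_le (s := S) (f := r)
  omega

/-- The last node of the grid with side `d + 1` cannot be reached with `d` pebbles. -/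
theorem grid_pebbled {n d : ℕ} (hn : n = d + 1) (hd : 1 ≤ d) {S : Finset (Fin n × Fin n)}
    (h : Pebbled (gridPr n) d S) (v : Fin n × Fin n) (hv1 : v.1.1 + 1 = n) (hv2 : v.2.1 + 1 = n) :
    v ∉ S := by
  have hr1 : ∀ u u', u ∈ gridPr n u' → u'.1.1 ≤ u.1.1 + 1 := by
    intro u u' hu
    rw [mem_gridPr] at hu
    rcases hu with ⟨_, _, h | h⟩
    · omega
    · rw [h.1]; omega
  have hr2 : ∀ u u', u ∈ gridPr n u' → u'.2.1 ≤ u.2.1 + 1 := by
    intro u u' hu
    rw [mem_gridPr] at hu
    rcases hu with ⟨_, _, h | h⟩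
    · rw [h.2]; omega
    · omega
  have inv : ∃ w, gridPr n w = ∅ ∧ Co (gridPr n) v S w := by
    unfold Pebbled at h
    induction h with
    | refl =>
      refine ⟨(v.1, ⟨0, by omega⟩), gridPr_eq_empty (Or.inr rfl), ?_⟩
      exact Co.row (by omega) (by simp) v.2.1 v.2.2 (Co.base (by simp))
    | @tail S S' _ hstep ih =>
      obtain ⟨w, hw, hco⟩ := ih
      obtain ⟨p, h1, h2, h3, h4, h5⟩ := hstep
      rcases h1 with h1 | h1
      · by_cases hwp : w = p
        · subst hwp
          by_cases hwS : w ∈ S
          · rw [insert_eq_self.2 hwS] at h1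
            rw [h1]
            exact ⟨w, hw, hco⟩
          · have hcard : S.card + 2 ≤ n := by
              rw [h1, card_insert_of_notMem hwS] at h5
              omega
            have hw0 : w.1.1 = 0 ∨ w.2.1 = 0 := by
              by_contra hcon
              push Not at hcon
              have hmem : ((w.1, ⟨w.2.1 - 1, by omega⟩) : Fin n × Fin n) ∈ gridPr n w := by
                rw [mem_gridPr]
                exact ⟨by omega, by omega, Or.inr ⟨rfl, by simp only; omega⟩⟩
              rw [hw] at hmem
              simp at hmem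
            rcases hw0 with hw0 | hw0
            · obtain ⟨a, ha, haS⟩ := exists_free hcard (fun u => u.1)
              obtain ⟨u, hu, huco⟩ := hco.cross (fun u => u.1.1) hr1 (a := a.1)
                (by omega) (by omega)
              have hua : u = (a, ⟨u.2.1, u.2.2⟩) := Prod.ext (Fin.ext hu) rfl
              rw [hua] at huco
              have := Co.row ha haS u.2.1 u.2.2 huco
              refine ⟨(a, ⟨0, by omega⟩), gridPr_eq_empty (Or.inr rfl), ?_⟩
              rw [h1]
              refine this.add h2 ?_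
              intro he
              rw [← he] at hw0
              simp only at hw0
              omega
            · obtain ⟨a, ha, haS⟩ := exists_free hcard (fun u => u.2)
              obtain ⟨u, hu, huco⟩ := hco.cross (fun u => u.2.1) hr2 (a := a.1)
                (by omega) (by omega)
              have hua : u = (⟨u.1.1, u.1.2⟩, a) := Prod.ext rfl (Fin.ext hu)
              rw [hua] at huco
              have := Co.col ha haS u.1.1 u.1.2 huco
              refine ⟨(⟨0, by omega⟩, a), gridPr_eq_empty (Or.inl rfl), ?_⟩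
              rw [h1]
              refine this.add h2 ?_
              intro he
              rw [← he] at hw0
              simp only at hw0
              omega
        · rw [h1]
          exact ⟨w, hw, hco.add h2 hwp⟩
      · exact ⟨w, hw, hco.anti (by rw [h1]; exact subset_insert _ _)⟩
  obtain ⟨w, _, hco⟩ := inv
  exact hco.target

end Pool.Agent.J6H7.Chain
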