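import Pool.Agent.J6H7.Chain.LMain
import Pool.Agent.J6H7.Chain.Lit

/-!
# The layered graphs as graphs with `n` nodes and `n` edges
-/

set_option autoImplicit false

namespace Pool.Agent.J6H7.Chain

open Finset Matrix Filter

/-- The directed graph on `n` vertices has the `n` edges `E 0, ..., E (n - 1)`; the variable `i`
says whether the edge `E i` is present. The function is true if `t` can be reached from `s` along
edges which are present. -/
def Reach {n : ℕ} (E : Fin n → Fin n × Fin n) (s t : Fin n) (x : Fin n → Bool) : Prop :=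
  Relation.ReflTransGen (fun a b => ∃ i, E i = (a, b) ∧ x i = true) s t

/-- the lower bound for networks in which few variables are negated -/
theorem layered_lit {V ι : Type} {P d M k : ℕ} (hM : M + 1 = 2 ^ d)
    (hk : k = (2 ^ d) ^ 2) (F : (ι → Bool) → Prop) (σ : ι → Bool ⊕ (Fin P × LEdge M k))
    (hF : ∀ x, F (subst σ x) ↔ LReach x) (N : Net V (ι ⊕ ι)) (Z : Finset ι)
    (hZ : ∀ e ∈ N.wires, ∀ i, e.2.2 = Sum.inr i → i ∈ Z) (hP : Z.card + 1 ≤ P)
    (hS : ∀ x, N.Undirected (lit x) ↔ F x) :
    2 ^ (d * d + 2 * d) ≤ (Z.card + 1) * (N.size + 1) := by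
  have h := layered_core (K := ℚ) hM hk (accDev Net.Undirected)
    (accDev_mono fun d _ _ h => d.undirected_mono h) F σ hF (s := N.size + 1)
    (p := fun d => match d with
      | Sum.inl N' => N'.size ≤ N.size + 1
      | Sum.inr _ => True) ?_ (l := [Z.card]) (by simpa using hP) (litStrategy N Z)
      (litStrategy_all N Z (by omega))
      (fun x => (litStrategy_run (acc := Net.Undirected) (acc' := Net.Undirected) N Z hZ
        (fun a x h => N.fix_undirected h) x).trans (hS x))
  · simpa using h
  · rintro (d' | i) hd' U W _ _ A pos' neg' ρ hρ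
    · exact (rb_undirected d' hρ).trans (Nat.mul_le_mul_right _ hd')
    · refine (hρ i).trans ?_
      exact Nat.le_mul_of_pos_left _ (by omega)

variable {P M k : ℕ}

theorem ledge_inj {p p' : Fin P} {e e' : LEdge M k} (h1 : e.tail p = e'.tail p')
    (h2 : e.head p = e'.head p') : p = p' ∧ e = e' := by
  cases e <;> cases e' <;> simp_all [LEdge.tail, LEdge.head]

section graph

variable {n : ℕ} (φ : LNode P M k → Fin n) (e : Fin P × LEdge M k → Fin n)

open Classical in
/-- The edges: those of the layered graphs, and for all the other variables an edge which ends in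
the source. -/
noncomputable def ledges (i : Fin n) : Fin n × Fin n :=
  if h : ∃ r, e r = i then
    (φ (h.choose.2.tail h.choose.1), φ (h.choose.2.head h.choose.1))
  else (i, φ .src)

open Classical in
/-- The unused variables are false. -/
noncomputable def lσ (i : Fin n) : Bool ⊕ (Fin P × LEdge M k) :=
  if h : ∃ r, e r = i then Sum.inr h.choose else Sum.inl false

theorem ledges_of (he : Function.Injective e) (r : Fin P × LEdge M k) :
    ledges φ e (e r) = (φ (r.2.tail r.1), φ (r.2.head r.1)) := by
  have hr : ∃ r', e r' = e r := ⟨r, rfl⟩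
  have hrr : hr.choose = r := he hr.choose_spec
  unfold ledges
  rw [dif_pos hr, hrr]

theorem lσ_of (he : Function.Injective e) (r : Fin P × LEdge M k) :
    lσ e (e r) = Sum.inr r := by
  have hr : ∃ r', e r' = e r := ⟨r, rfl⟩
  have hrr : hr.choose = r := he hr.choose_spec
  unfold lσ
  rw [dif_pos hr, hrr]

theorem head_ne_src (r : Fin P × LEdge M k) : r.2.head r.1 ≠ .src := by
  obtain ⟨p, r⟩ := r
  cases r <;> simp [LEdge.head]

theorem ledges_injective (hφ : Function.Injective φ) (he : Function.Injective e) :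
    Function.Injective (ledges φ e) := by
  intro i j hij
  by_cases hi : ∃ r, e r = i
  · obtain ⟨r, rfl⟩ := hi
    rw [ledges_of φ e he] at hij
    by_cases hj : ∃ r', e r' = j
    · obtain ⟨r', rfl⟩ := hj
      rw [ledges_of φ e he, Prod.mk.injEq] at hij
      obtain ⟨h1, h2⟩ := ledge_inj (hφ hij.1) (hφ hij.2)
      rw [Prod.ext h1 h2]
    · unfold ledges at hij
      rw [dif_neg hj, Prod.mk.injEq] at hij
      exact absurd (hφ hij.2) (head_ne_src r)
  · by_cases hj : ∃ r', e r' = j
    · obtain ⟨r', rfl⟩ := hj
      rw [ledges_of φ e he] at hij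
      unfold ledges at hij
      rw [dif_neg hi, Prod.mk.injEq] at hij
      exact absurd (hφ hij.2).symm (head_ne_src r')
    · unfold ledges at hij
      rw [dif_neg hi, dif_neg hj, Prod.mk.injEq] at hij
      exact hij.1

theorem lstep_iff (he : Function.Injective e) (x : Fin P × LEdge M k → Bool) (a b : Fin n) :
    (∃ i, ledges φ e i = (a, b) ∧ subst (lσ e) x i = true) ↔
      ∃ r : Fin P × LEdge M k, x r = true ∧ a = φ (r.2.tail r.1) ∧ b = φ (r.2.head r.1) := by
  constructor
  · rintro ⟨i, h, hx⟩
    by_cases hi : ∃ r, e r = i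
    · obtain ⟨r, rfl⟩ := hi
      rw [ledges_of φ e he, Prod.mk.injEq] at h
      unfold subst at hx
      rw [lσ_of e he] at hx
      exact ⟨r, hx, h.1.symm, h.2.symm⟩
    · unfold subst lσ at hx
      rw [dif_neg hi] at hx
      simp at hx
  · rintro ⟨r, hx, h1, h2⟩
    refine ⟨e r, ?_, ?_⟩
    · rw [ledges_of φ e he, h1, h2]
    · unfold subst
      rw [lσ_of e he]
      exact hx

theorem reach_iff (hφ : Function.Injective φ) (he : Function.Injective e)
    (x : Fin P × LEdge M k → Bool) :
    Reach (ledges φ e) (φ .src) (φ .tgt) (subst (lσ e) x) ↔ LReach x := by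
  constructor
  · intro h
    have key : ∀ b, Relation.ReflTransGen
        (fun a b => ∃ i, ledges φ e i = (a, b) ∧ subst (lσ e) x i = true) (φ .src) b →
        ∃ b', b = φ b' ∧ Relation.ReflTransGen (LStep x) .src b' := by
      intro b hb
      induction hb with
      | refl => exact ⟨_, rfl, Relation.ReflTransGen.refl⟩
      | tail _ hbc ih =>
        obtain ⟨b', rfl, ih⟩ := ih
        obtain ⟨r, hx, h1, h2⟩ := (lstep_iff φ e he x _ _).1 hbc
        exact ⟨_, h2, ih.tail ⟨r, hx, hφ h1, rfl⟩⟩
    obtain ⟨b', h1, h2⟩ := key _ h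
    rw [← hφ h1] at h2
    exact h2
  · intro h
    have key : ∀ b, Relation.ReflTransGen (LStep x) .src b →
        Relation.ReflTransGen
          (fun a b => ∃ i, ledges φ e i = (a, b) ∧ subst (lσ e) x i = true) (φ .src) (φ b) := by
      intro b hb
      induction hb with
      | refl => exact Relation.ReflTransGen.refl
      | tail _ hbc ih =>
        obtain ⟨r, hx, h1, h2⟩ := hbc
        exact ih.tail ((lstep_iff φ e he x _ _).2 ⟨r, hx, by rw [h1], by rw [h2]⟩)
    exact key _ h

end graph

theorem exists_nodes {n : ℕ} (hn : P * ((M + 1) * k) + 1 + 1 ≤ n) :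
    ∃ φ : LNode P M k → Fin n, Function.Injective φ := by
  obtain ⟨φ⟩ : Nonempty (LNode P M k ↪ Fin n) :=
    Function.Embedding.nonempty_of_card_le (by rw [card_lnode, Fintype.card_fin]; exact hn)
  exact ⟨φ, φ.injective⟩

theorem exists_edges {n : ℕ} (hk : 2 ≤ k) (hn : P * ((M + 1) * (k * k)) ≤ n) :
    ∃ e : Fin P × LEdge M k → Fin n, Function.Injective e := by
  obtain ⟨e⟩ : Nonempty (Fin P × LEdge M k ↪ Fin n) := by
    refine Function.Embedding.nonempty_of_card_le ?_
    rw [Fintype.card_prod, card_ledge, Fintype.card_fin, Fintype.card_fin]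
    refine le_trans (Nat.mul_le_mul_left P ?_) hn
    nlinarith
  exact ⟨e, e.injective⟩

end Pool.Agent.J6H7.Chain
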