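import Pool.Agent.J6H7.Chain.Lay

/-!
# Lower bounds for directed reachability
-/

set_option autoImplicit false

namespace Pool.Agent.J6H7.Chain

open Finset Matrix Filter

/-- The lower bound for a function which contains the disjunction of `P` copies of reachability in
the layered graph with `2 ^ d` layers of `(2 ^ d) ^ 2` nodes. -/
theorem layered_core {K : Type} [Field K] {D ι : Type} {P d M k : ℕ} (hM : M + 1 = 2 ^ d)
    (hk : k = (2 ^ d) ^ 2) (acc : D → (ι → Bool) → Prop)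
    (hacc : ∀ d x y, x ≤ y → acc d x → acc d y) (F : (ι → Bool) → Prop)
    (σ : ι → Bool ⊕ (Fin P × LEdge M k))
    (hF : ∀ x, F (subst σ x) ↔ LReach x) {s : ℕ} {p : D → Prop}
    (hB : ∀ d, p d → ∀ (U W : Type) [Fintype U] [Fintype W] (A : Matrix U W K)
      (pos' : U → ι → Bool) (neg' : W → ι → Bool) (ρ : ℕ),
      (∀ i, rb A pos' neg' (fun z => z i = true) ≤ ρ) → rb A pos' neg' (acc d) ≤ s * ρ)
    {l : List ℕ} (hl : (l.map (· + 1)).prod ≤ P) (S : Strategy D l) (hp : S.All p)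
    (hS : ∀ x, S.run acc x ↔ F x) : 2 ^ (d * d + 2 * d) ≤ (l.sum + 1) * s := by
  have hpos : 0 < 2 ^ d := by positivity
  have hd : d + 1 ≤ 2 ^ d := Nat.lt_two_pow_self
  have h := master (K := K) (A := pebMat K (pathPr (M + 1)) d k) (β := LEdge M k) acc hacc
    LReach1 not_lreach_false F σ (fun x => (hF x).trans (lreach_iff x)) lreach_pos
    not_lreach_neg (ρ := (M + 1).choose d * k ^ (M + 1 - (d + 1)))
    (B := s * ((M + 1).choose d * k ^ (M + 1 - (d + 1)))) (fun b => rb_ledge hM b)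
    (fun d' hd' pos' neg' h' => hB d' hd' _ _ _ pos' neg' _ h') hl S hp hS
  have h2 := (pow_le_rank_pebMat (K := K) (k := k) (pathPr (M + 1)) d).trans h
  rw [Fintype.card_fin] at h2
  have hkpos : 0 < k := by rw [hk]; positivity
  have h3 : k ^ (M + 1) = k ^ (d + 1) * k ^ (M + 1 - (d + 1)) := by
    rw [← pow_add]
    congr 1
    omega
  rw [h3] at h2
  have h4 : k ^ (d + 1) * k ^ (M + 1 - (d + 1)) ≤
      ((l.sum + 1) * s * (M + 1).choose d) * k ^ (M + 1 - (d + 1)) := by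
    refine h2.trans (le_of_eq ?_)
    ring
  have h5 := Nat.le_of_mul_le_mul_right h4 (by positivity)
  have h6 : (M + 1).choose d ≤ (2 ^ d) ^ d := by
    rw [hM]
    exact Nat.choose_le_pow _ _
  have h7 : 2 ^ (d * d + 2 * d) * (2 ^ d) ^ d ≤ (l.sum + 1) * s * (2 ^ d) ^ d := by
    calc 2 ^ (d * d + 2 * d) * (2 ^ d) ^ d = k ^ (d + 1) := by
          rw [hk, ← pow_mul, ← pow_mul, ← pow_mul, ← pow_add]
          congr 1
          ring
      _ ≤ _ := h5.trans (Nat.mul_le_mul_left _ h6)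
  exact Nat.le_of_mul_le_mul_right h7 (by positivity)

/-- the lower bound for span programs -/
theorem layered_span {K κ ι : Type} [Field K] {P d M k : ℕ} (hM : M + 1 = 2 ^ d)
    (hk : k = (2 ^ d) ^ 2) (F : (ι → Bool) → Prop) (σ : ι → Bool ⊕ (Fin P × LEdge M k))
    (hF : ∀ x, F (subst σ x) ↔ LReach x) {s : ℕ}
    {l : List ℕ} (hl : (l.map (· + 1)).prod ≤ P) (S : Strategy (Span K κ ι) l)
    (hp : S.All fun d => d.size ≤ s)
    (hS : ∀ x, S.run Span.Accepts x ↔ F x) : 2 ^ (d * d + 2 * d) ≤ (l.sum + 1) * s :=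
  layered_core (K := K) hM hk Span.Accepts (fun d _ _ h => d.accepts_mono h) F σ hF
    (fun d hd _ _ _ _ _ _ _ _ hρ => (rb_span d hρ).trans (Nat.mul_le_mul_right _ hd)) hl S hp hS

/-- the lower bound for undirected networks -/
theorem layered_undirected {V ι : Type} {P d M k : ℕ} (hM : M + 1 = 2 ^ d)
    (hk : k = (2 ^ d) ^ 2) (F : (ι → Bool) → Prop) (σ : ι → Bool ⊕ (Fin P × LEdge M k))
    (hF : ∀ x, F (subst σ x) ↔ LReach x) {s : ℕ}
    {l : List ℕ} (hl : (l.map (· + 1)).prod ≤ P) (S : Strategy (Net V ι) l)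
    (hp : S.All fun d => d.size ≤ s)
    (hS : ∀ x, S.run Net.Undirected x ↔ F x) : 2 ^ (d * d + 2 * d) ≤ (l.sum + 1) * s :=
  layered_core (K := ℚ) hM hk Net.Undirected (fun d _ _ h => d.undirected_mono h) F σ hF
    (fun d hd _ _ _ _ _ _ _ _ hρ => (rb_undirected d hρ).trans (Nat.mul_le_mul_right _ hd))
    hl S hp hS

/-! ### the numbers -/

/-- the parameter `d` -/
noncomputable def dpar (ε : ℝ) (n : ℕ) : ℕ := ⌊ε / 5 * Real.logb 2 n⌋₊

theorem two_pow_dpar {ε : ℝ} (hε : 0 < ε) {n : ℕ} (hn : 1 ≤ n) :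
    ((2 : ℝ) ^ dpar ε n) ≤ (n : ℝ) ^ (ε / 5) := by
  have hn' : (1 : ℝ) ≤ n := by exact_mod_cast hn
  have h0 : 0 ≤ ε / 5 * Real.logb 2 n :=
    mul_nonneg (by linarith) (Real.logb_nonneg (by norm_num) hn')
  have h1 : (dpar ε n : ℝ) ≤ ε / 5 * Real.logb 2 n := Nat.floor_le h0
  calc ((2 : ℝ) ^ dpar ε n) = (2 : ℝ) ^ ((dpar ε n : ℕ) : ℝ) := (Real.rpow_natCast _ _).symm
    _ ≤ (2 : ℝ) ^ (ε / 5 * Real.logb 2 n) := Real.rpow_le_rpow_of_exponent_le (by norm_num) h1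
    _ = ((2 : ℝ) ^ Real.logb 2 n) ^ (ε / 5) := by
      rw [mul_comm, Real.rpow_mul (by norm_num)]
    _ = (n : ℝ) ^ (ε / 5) := by
      rw [Real.rpow_logb (by norm_num) (by norm_num) (by linarith)]

/-- the number of all the edges fits -/
theorem edges_le {ε : ℝ} (hε : 0 < ε) {n : ℕ} (hn : 1 ≤ n) :
    ⌊(n : ℝ) ^ (1 - ε)⌋₊ * ((2 ^ dpar ε n) * ((2 ^ dpar ε n) ^ 2 * (2 ^ dpar ε n) ^ 2)) ≤ n := by
  have hn' : (0 : ℝ) < n := by exact_mod_cast hn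
  have h1 := two_pow_dpar hε hn
  have h2 : (⌊(n : ℝ) ^ (1 - ε)⌋₊ : ℝ) ≤ (n : ℝ) ^ (1 - ε) :=
    Nat.floor_le (Real.rpow_nonneg hn'.le _)
  have h3 : ((2 : ℝ) ^ dpar ε n) ^ 5 ≤ (n : ℝ) ^ ε := by
    calc ((2 : ℝ) ^ dpar ε n) ^ 5 ≤ ((n : ℝ) ^ (ε / 5)) ^ 5 :=
          pow_le_pow_left₀ (by positivity) h1 5
      _ = (n : ℝ) ^ ε := by
        rw [← Real.rpow_natCast, ← Real.rpow_mul hn'.le]
        congr 1
        push_cast
        ring
  have h4 : (⌊(n : ℝ) ^ (1 - ε)⌋₊ : ℝ) * ((2 : ℝ) ^ dpar ε n) ^ 5 ≤ n := by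
    calc _ ≤ (n : ℝ) ^ (1 - ε) * (n : ℝ) ^ ε :=
          mul_le_mul h2 h3 (by positivity) (Real.rpow_nonneg hn'.le _)
      _ = n := by
        rw [← Real.rpow_add hn']
        simp
  have h5 : ((⌊(n : ℝ) ^ (1 - ε)⌋₊ * ((2 ^ dpar ε n) *
      ((2 ^ dpar ε n) ^ 2 * (2 ^ dpar ε n) ^ 2)) : ℕ) : ℝ) ≤ n := by
    push_cast
    refine le_trans (le_of_eq ?_) h4
    ring
  exact_mod_cast h5

/-- the number of all the nodes fits -/
theorem nodes_le {ε : ℝ} (hε : 0 < ε) : ∀ᶠ n : ℕ in atTop,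
    ⌊(n : ℝ) ^ (1 - ε)⌋₊ * (2 ^ dpar ε n * (2 ^ dpar ε n) ^ 2) + 1 + 1 ≤ n := by
  have hlim : Tendsto (fun n : ℕ => (n : ℝ) ^ (2 * ε / 5)) atTop atTop :=
    (tendsto_rpow_atTop (by positivity)).comp tendsto_natCast_atTop_atTop
  filter_upwards [hlim.eventually_ge_atTop 2, eventually_ge_atTop 4] with n hn h4n
  have hn1 : 1 ≤ n := by omega
  have hn' : (0 : ℝ) < n := by exact_mod_cast hn1
  have h1 := two_pow_dpar hε hn1
  have h2 : (⌊(n : ℝ) ^ (1 - ε)⌋₊ : ℝ) ≤ (n : ℝ) ^ (1 - ε) :=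
    Nat.floor_le (Real.rpow_nonneg hn'.le _)
  have h3 : ((2 : ℝ) ^ dpar ε n) ^ 3 ≤ (n : ℝ) ^ (3 * ε / 5) := by
    calc ((2 : ℝ) ^ dpar ε n) ^ 3 ≤ ((n : ℝ) ^ (ε / 5)) ^ 3 :=
          pow_le_pow_left₀ (by positivity) h1 3
      _ = (n : ℝ) ^ (3 * ε / 5) := by
        rw [← Real.rpow_natCast, ← Real.rpow_mul hn'.le]
        congr 1
        push_cast
        ring
  have h4 : (⌊(n : ℝ) ^ (1 - ε)⌋₊ : ℝ) * ((2 : ℝ) ^ dpar ε n) ^ 3 ≤ n / 2 := by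
    have h6 : (n : ℝ) ^ (1 - ε) * (n : ℝ) ^ (3 * ε / 5) * (n : ℝ) ^ (2 * ε / 5) = n := by
      rw [← Real.rpow_add hn', ← Real.rpow_add hn']
      have : 1 - ε + 3 * ε / 5 + 2 * ε / 5 = 1 := by ring
      rw [this, Real.rpow_one]
    have h7 : (⌊(n : ℝ) ^ (1 - ε)⌋₊ : ℝ) * ((2 : ℝ) ^ dpar ε n) ^ 3 ≤
        (n : ℝ) ^ (1 - ε) * (n : ℝ) ^ (3 * ε / 5) :=
      mul_le_mul h2 h3 (by positivity) (Real.rpow_nonneg hn'.le _)
    have h8 : 0 ≤ (n : ℝ) ^ (1 - ε) * (n : ℝ) ^ (3 * ε / 5) :=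
      mul_nonneg (Real.rpow_nonneg hn'.le _) (Real.rpow_nonneg hn'.le _)
    nlinarith
  have h5 : ((⌊(n : ℝ) ^ (1 - ε)⌋₊ * (2 ^ dpar ε n * (2 ^ dpar ε n) ^ 2) + 1 + 1 : ℕ) : ℝ) ≤
      n := by
    push_cast
    have h9 : (4 : ℝ) ≤ n := by exact_mod_cast h4n
    have h10 : (⌊(n : ℝ) ^ (1 - ε)⌋₊ : ℝ) * (2 ^ dpar ε n * (2 ^ dpar ε n) ^ 2) =
        (⌊(n : ℝ) ^ (1 - ε)⌋₊ : ℝ) * ((2 : ℝ) ^ dpar ε n) ^ 3 := by ring
    rw [h10]
    linarith
  exact_mod_cast h5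

/-- the final size bound -/
theorem size_bound {ε : ℝ} (hε : 0 < ε) : ∀ᶠ n : ℕ in atTop, ∀ L s : ℕ,
    (L : ℝ) ≤ (n : ℝ) ^ (1 - ε) → 2 ^ (dpar ε n * dpar ε n + 2 * dpar ε n) ≤ L * s →
    (n : ℝ) ^ (ε ^ 2 / 50 * Real.log n) ≤ s := by
  have hlim : Tendsto (fun n : ℕ => Real.log (n : ℝ)) atTop atTop :=
    Real.tendsto_log_atTop.comp tendsto_natCast_atTop_atTop
  filter_upwards [hlim.eventually_ge_atTop 1, hlim.eventually_ge_atTop (100 / ε ^ 2),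
    eventually_ge_atTop 1] with n hL1 hL2 hn L s hL h
  have hn' : (1 : ℝ) ≤ n := by exact_mod_cast hn
  have hn0 : (0 : ℝ) < n := by linarith
  set T := Real.log (n : ℝ) with hT
  set d := dpar ε n with hd
  have hs : 0 < s := by
    rcases Nat.eq_zero_or_pos s with hs | hs
    · rw [hs, mul_zero] at h
      exact absurd h (Nat.not_le.2 (by positivity))
    · exact hs
  have hs' : (0 : ℝ) < s := by exact_mod_cast hs
  have hlog2 : Real.log 2 ≤ 1 := by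
    have := Real.log_two_lt_d9
    linarith
  have hlog2' : 0 < Real.log 2 := Real.log_pos (by norm_num)
  -- the bound in the reals
  have h1 : (2 : ℝ) ^ (d * d + 2 * d) ≤ n * s := by
    have h2 : ((2 ^ (d * d + 2 * d) : ℕ) : ℝ) ≤ ((L * s : ℕ) : ℝ) := by exact_mod_cast h
    push_cast at h2
    have h3 : (L : ℝ) ≤ n := by
      refine hL.trans ?_
      calc (n : ℝ) ^ (1 - ε) ≤ (n : ℝ) ^ (1 : ℝ) :=
            Real.rpow_le_rpow_of_exponent_le hn' (by linarith)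
        _ = n := Real.rpow_one _
    exact h2.trans (mul_le_mul_of_nonneg_right h3 hs'.le)
  have h2 : ((d * d + 2 * d : ℕ) : ℝ) * Real.log 2 ≤ T + Real.log s := by
    have := Real.log_le_log (by positivity) h1
    rw [Real.log_pow, Real.log_mul hn0.ne' hs'.ne'] at this
    exact this
  have h3 : ε / 5 * (T / Real.log 2) < d + 1 := by
    have := Nat.lt_floor_add_one (ε / 5 * Real.logb 2 n)
    exact this
  have h4 : ((d : ℝ) + 1) ^ 2 * Real.log 2 ≤ T + Real.log s + 1 := by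
    push_cast at h2
    nlinarith
  have h5 : ε ^ 2 / 25 * T ^ 2 ≤ ((d : ℝ) + 1) ^ 2 * Real.log 2 := by
    have hT0 : 0 < T := by linarith
    have h6 : (ε / 5 * (T / Real.log 2)) ^ 2 ≤ ((d : ℝ) + 1) ^ 2 :=
      pow_le_pow_left₀ (by positivity) h3.le 2
    have h7 : ε ^ 2 / 25 * T ^ 2 ≤ (ε / 5 * (T / Real.log 2)) ^ 2 * Real.log 2 := by
      have : (ε / 5 * (T / Real.log 2)) ^ 2 * Real.log 2 = ε ^ 2 / 25 * T ^ 2 / Real.log 2 := by
        field_simp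
        ring
      rw [this, le_div_iff₀ hlog2']
      have h8 : 0 ≤ ε ^ 2 / 25 * T ^ 2 := by positivity
      nlinarith
    exact h7.trans (mul_le_mul_of_nonneg_right h6 hlog2'.le)
  have h6 : T + 1 ≤ ε ^ 2 / 50 * T ^ 2 := by
    have hε2 : 0 < ε ^ 2 := by positivity
    have h7 : 100 ≤ T * ε ^ 2 := by
      rwa [div_le_iff₀ hε2] at hL2
    nlinarith
  have h7 : ε ^ 2 / 50 * T ^ 2 ≤ Real.log s := by nlinarith
  calc (n : ℝ) ^ (ε ^ 2 / 50 * T) = Real.exp (T * (ε ^ 2 / 50 * T)) := by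
        rw [Real.rpow_def_of_pos hn0]
    _ ≤ Real.exp (Real.log s) := Real.exp_le_exp.2 (by nlinarith)
    _ = s := Real.exp_log hs'

end Pool.Agent.J6H7.Chain
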