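import Pool.Agent.J6H7.Chain.Path
import Pool.Agent.J6H7.Chain.Master

/-!
# Reachability in layered graphs

The graph has `M + 1` layers of `k` nodes. There are `P` copies of it, which share the source and
the target.
-/

set_option autoImplicit false

namespace Pool.Agent.J6H7.Chain

open Finset Matrix

/-- the nodes of `P` copies of the layered graph -/
inductive LNode (P M k : ℕ) : Type
  | src : LNode P M k
  | tgt : LNode P M k
  | nd (p : Fin P) (v : Fin (M + 1)) (i : Fin k) : LNode P M k
  deriving DecidableEq

/-- the edges of one copy -/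
inductive LEdge (M k : ℕ) : Type
  | fst (j : Fin k) : LEdge M k
  | mid (v : Fin M) (i j : Fin k) : LEdge M k
  | lst (i : Fin k) : LEdge M k
  deriving DecidableEq

variable {P M k : ℕ}

/-- where the edge starts -/
def LEdge.tail (p : Fin P) : LEdge M k → LNode P M k
  | .fst _ => .src
  | .mid v i _ => .nd p v.castSucc i
  | .lst i => .nd p (Fin.last M) i

/-- where the edge ends -/
def LEdge.head (p : Fin P) : LEdge M k → LNode P M k
  | .fst j => .nd p 0 j
  | .mid v _ j => .nd p v.succ j
  | .lst _ => .tgt

/-- one step along an edge which is present -/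
def LStep (x : Fin P × LEdge M k → Bool) (a b : LNode P M k) : Prop :=
  ∃ q, x q = true ∧ a = q.2.tail q.1 ∧ b = q.2.head q.1

/-- reachability in all the copies -/
def LReach (x : Fin P × LEdge M k → Bool) : Prop :=
  Relation.ReflTransGen (LStep x) .src .tgt

/-- reachability in one copy -/
def LReach1 (z : LEdge M k → Bool) : Prop :=
  LReach (P := 1) (fun q => z q.2)

theorem lreach_iff (x : Fin P × LEdge M k → Bool) :
    LReach x ↔ ∃ p, LReach1 (fun e => x (p, e)) := by
  constructor
  · intro h
    have key : ∀ b, Relation.ReflTransGen (LStep x) .src b → b = .src ∨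
        (b = .tgt ∧ ∃ p, LReach1 (fun e => x (p, e))) ∨
        ∃ p v i, b = .nd p v i ∧ Relation.ReflTransGen
          (LStep (P := 1) (fun q => x (p, q.2))) .src (.nd 0 v i) := by
      intro b hb
      induction hb with
      | refl => exact Or.inl rfl
      | @tail b c _ hbc ih =>
        obtain ⟨⟨p, e⟩, hx, h1, h2⟩ := hbc
        simp only at hx h1 h2
        cases e with
        | fst j =>
          right; right
          exact ⟨p, 0, j, h2, Relation.ReflTransGen.single ⟨(0, .fst j), hx, rfl, rfl⟩⟩
        | mid v i j =>
          rcases ih with ih | ⟨ih, _⟩ | ⟨p', v', i', ih1, ih2⟩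
          · rw [ih] at h1; simp [LEdge.tail] at h1
          · rw [ih] at h1; simp [LEdge.tail] at h1
          · rw [ih1] at h1
            simp only [LEdge.tail, LNode.nd.injEq] at h1
            obtain ⟨rfl, rfl, rfl⟩ := h1
            right; right
            exact ⟨p', v.succ, j, h2, ih2.tail ⟨(0, .mid v i' j), hx, rfl, rfl⟩⟩
        | lst i =>
          rcases ih with ih | ⟨ih, _⟩ | ⟨p', v', i', ih1, ih2⟩
          · rw [ih] at h1; simp [LEdge.tail] at h1
          · rw [ih] at h1; simp [LEdge.tail] at h1
          · rw [ih1] at h1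
            simp only [LEdge.tail, LNode.nd.injEq] at h1
            obtain ⟨rfl, rfl, rfl⟩ := h1
            right; left
            exact ⟨h2, p', ih2.tail ⟨(0, .lst i'), hx, rfl, rfl⟩⟩
    rcases key _ h with h | ⟨_, h⟩ | ⟨p, v, i, h, _⟩
    · simp at h
    · exact h
    · simp at h
  · rintro ⟨p, h⟩
    let g : LNode 1 M k → LNode P M k := fun b => match b with
      | .src => .src
      | .tgt => .tgt
      | .nd _ v i => .nd p v i
    have key : ∀ b, Relation.ReflTransGen (LStep (P := 1) (fun q => x (p, q.2))) .src b →
        Relation.ReflTransGen (LStep x) .src (g b) := by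
      intro b hb
      induction hb with
      | refl => exact Relation.ReflTransGen.refl
      | @tail b c _ hbc ih =>
        obtain ⟨⟨p', e⟩, hx, h1, h2⟩ := hbc
        refine ih.tail ⟨(p, e), hx, ?_, ?_⟩
        · rw [h1]; cases e <;> rfl
        · rw [h2]; cases e <;> rfl
    exact key _ h

/-- the edges of the path `u` -/
def lpos (u : Fin (M + 1) → Fin k) : LEdge M k → Bool
  | .fst j => decide (u 0 = j)
  | .mid v i j => decide (u v.castSucc = i) && decide (u v.succ = j)
  | .lst i => decide (u (Fin.last M) = i)

/-- the edges which do not leave the set `w` -/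
def lneg (w : Fin (M + 1) × Fin k → Bool) : LEdge M k → Bool
  | .fst j => w (0, j)
  | .mid v i j => !w (v.castSucc, i) || w (v.succ, j)
  | .lst i => !w (Fin.last M, i)

theorem lreach_pos (u : Fin (M + 1) → Fin k) : LReach1 (lpos u) := by
  have key : ∀ v : Fin (M + 1), Relation.ReflTransGen
      (LStep (P := 1) (fun q => lpos u q.2)) .src (.nd 0 v (u v)) := by
    intro v
    induction v using Fin.induction with
    | zero =>
      exact Relation.ReflTransGen.single ⟨(0, .fst (u 0)), by simp [lpos], rfl, rfl⟩
    | succ v ih =>
      exact ih.tail ⟨(0, .mid v (u v.castSucc) (u v.succ)), by simp [lpos], rfl, rfl⟩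
  exact (key (Fin.last M)).tail ⟨(0, .lst (u (Fin.last M))), by simp [lpos], rfl, rfl⟩

theorem not_lreach_neg (w : Fin (M + 1) × Fin k → Bool) : ¬ LReach1 (lneg w) := by
  intro h
  have key : ∀ b : LNode 1 M k, Relation.ReflTransGen
      (LStep (P := 1) (fun q => lneg w q.2)) .src b → b = .src ∨
        ∃ p v i, b = .nd p v i ∧ w (v, i) = true := by
    intro b hb
    induction hb with
    | refl => exact Or.inl rfl
    | @tail b c _ hbc ih =>
      obtain ⟨⟨p, e⟩, hx, h1, h2⟩ := hbc
      simp only at hx h1 h2
      cases e with
      | fst j => exact Or.inr ⟨p, 0, j, h2, hx⟩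
      | mid v i j =>
        rcases ih with ih | ⟨p', v', i', ih1, ih2⟩
        · rw [ih] at h1; simp [LEdge.tail] at h1
        · rw [ih1] at h1
          simp only [LEdge.tail, LNode.nd.injEq] at h1
          obtain ⟨rfl, rfl, rfl⟩ := h1
          right
          refine ⟨p', v.succ, j, h2, ?_⟩
          simpa [lneg, ih2] using hx
      | lst i =>
        rcases ih with ih | ⟨p', v', i', ih1, ih2⟩
        · rw [ih] at h1; simp [LEdge.tail] at h1
        · rw [ih1] at h1
          simp only [LEdge.tail, LNode.nd.injEq] at h1
          obtain ⟨rfl, rfl, rfl⟩ := h1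
          simp [lneg, ih2] at hx
  rcases key _ h with h | ⟨p, v, i, h, _⟩
  · simp at h
  · simp at h

theorem not_lreach_false : ¬ LReach1 (fun _ : LEdge M k => false) := by
  intro h
  unfold LReach1 LReach at h
  rcases Relation.ReflTransGen.cases_head h with h | ⟨b, h, _⟩
  · simp at h
  · obtain ⟨_, h, _⟩ := h
    simp at h

/-- the number of edges of one copy -/
def lequiv : LEdge M k ≃ (Fin k ⊕ (Fin M × Fin k × Fin k)) ⊕ Fin k where
  toFun
    | .fst j => Sum.inl (Sum.inl j)
    | .mid v i j => Sum.inl (Sum.inr (v, i, j))
    | .lst i => Sum.inr i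
  invFun
    | Sum.inl (Sum.inl j) => .fst j
    | Sum.inl (Sum.inr (v, i, j)) => .mid v i j
    | Sum.inr i => .lst i
  left_inv := by rintro (_ | _ | _) <;> rfl
  right_inv := by rintro ((_ | ⟨_, _, _⟩) | _) <;> rfl

instance : Fintype (LEdge M k) := Fintype.ofEquiv _ lequiv.symm

theorem card_ledge : Fintype.card (LEdge M k) = k + M * (k * k) + k := by
  rw [Fintype.card_congr lequiv]
  simp

/-- the nodes of the copies -/
def lnequiv : LNode P M k ≃ Option (Option (Fin P × Fin (M + 1) × Fin k)) where
  toFun
    | .src => none
    | .tgt => some none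
    | .nd p v i => some (some (p, v, i))
  invFun
    | none => .src
    | some none => .tgt
    | some (some (p, v, i)) => .nd p v i
  left_inv := by rintro (_ | _ | _) <;> rfl
  right_inv := by rintro (_ | _ | ⟨_, _, _⟩) <;> rfl

instance : Fintype (LNode P M k) := Fintype.ofEquiv _ lnequiv.symm

theorem card_lnode : Fintype.card (LNode P M k) = P * ((M + 1) * k) + 1 + 1 := by
  rw [Fintype.card_congr lnequiv]
  simp

/-- **The rank of the part of the matrix which belongs to an edge.** -/
theorem rb_ledge {K : Type} [Field K] {d : ℕ} (hM : M + 1 = 2 ^ d) (e : LEdge M k) :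
    rb (pebMat K (pathPr (M + 1)) d k) lpos lneg (fun z => z e = true) ≤
      (M + 1).choose d * k ^ (M + 1 - (d + 1)) := by
  have h := rb_var_le (K := K) (V := Fin (M + 1)) (k := k) (pr := pathPr (M + 1)) (d := d)
    (fun v => pathPr_irrefl v) (Fin.last M)
    (fun S hS => path_pebbled hM hS (Fin.last M) (by simp)) lpos lneg e ?_
  · simpa using h
  · cases e with
    | fst j =>
      right
      refine ⟨0, j, ?_, ?_, ?_⟩
      · intro x hx
        simpa [lpos] using hx
      · intro y hy
        simpa [lneg] using hy
      · intro x y _ _ u hu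
        simp [pathPr] at hu
    | mid v i j =>
      right
      refine ⟨v.succ, j, ?_, ?_, ?_⟩
      · intro x hx
        simp only [lpos, Bool.and_eq_true, decide_eq_true_eq] at hx
        exact hx.2
      · intro y hy
        simp only [lneg, Bool.or_eq_false_iff] at hy
        exact hy.2
      · intro x y hx hy u hu
        have hu' : u = v.castSucc := by
          simp only [pathPr, mem_filter, mem_univ, true_and, Fin.val_succ, add_left_inj] at hu
          exact Fin.ext hu
        simp only [lpos, Bool.and_eq_true, decide_eq_true_eq] at hx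
        simp only [lneg, Bool.or_eq_false_iff, Bool.not_eq_false'] at hy
        rw [hu', hx.1]
        exact hy.1
    | lst i =>
      left
      intro x y hx hy
      simp only [lpos, decide_eq_true_eq] at hx
      simp only [lneg, Bool.not_eq_false'] at hy
      rw [hx]
      exact hy

end Pool.Agent.J6H7.Chain
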