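import Pool.Agent.J6H7.Chain.GSys

/-!
# Lower bounds for path systems
-/

set_option autoImplicit false

namespace Pool.Agent.J6H7.Chain

open Finset Matrix Filter

variable {P G k : ℕ}

/-- The lower bound for a function which contains the disjunction of `P` copies of the path
system on the grid. -/
theorem grid_core {K : Type} [Field K] {D ι : Type} (hG : 1 ≤ G)
    (hk : k = ((G + 1) * (G + 1)) ^ 2) (acc : D → (ι → Bool) → Prop)
    (hacc : ∀ d x y, x ≤ y → acc d x → acc d y) (F : (ι → Bool) → Prop)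
    (σ : ι → Bool ⊕ (Fin P × GRule G k))
    (hF : ∀ x, F (subst σ x) ↔ GReach x) {T : ℕ} {p : D → Prop}
    (hB : ∀ d, p d → ∀ (U W : Type) [Fintype U] [Fintype W] (A : Matrix U W K)
      (pos' : U → ι → Bool) (neg' : W → ι → Bool) (ρ : ℕ),
      (∀ i, rb A pos' neg' (fun z => z i = true) ≤ ρ) → rb A pos' neg' (acc d) ≤ T * ρ)
    {l : List ℕ} (hl : (l.map (· + 1)).prod ≤ P) (S : Strategy D l) (hp : S.All p)
    (hS : ∀ x, S.run acc x ↔ F x) : 2 ^ (2 * G + 4) ≤ (l.sum + 1) * T := by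
  set m := (G + 1) * (G + 1) with hm
  have hmpos : 0 < m := by positivity
  have hmG : G + 1 ≤ m := by nlinarith
  have h := master (K := K) (A := pebMat K (gridPr (G + 1)) G k) (β := GRule G k) acc hacc
    GReach1 not_greach_false F σ (fun x => (hF x).trans (greach_iff x)) greach_pos
    not_greach_neg (ρ := m.choose G * k ^ (m - (G + 1)))
    (B := T * (m.choose G * k ^ (m - (G + 1)))) (fun b => rb_grule hG b)
    (fun d' hd' pos' neg' h' => hB d' hd' _ _ _ pos' neg' _ h') hl S hp hS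
  have h2 := (pow_le_rank_pebMat (K := K) (k := k) (gridPr (G + 1)) G).trans h
  rw [Fintype.card_prod, Fintype.card_fin, ← hm] at h2
  have hkpos : 0 < k := by rw [hk]; positivity
  have h3 : k ^ m = k ^ (G + 1) * k ^ (m - (G + 1)) := by
    rw [← pow_add]
    congr 1
    omega
  rw [h3] at h2
  have h4 : k ^ (G + 1) * k ^ (m - (G + 1)) ≤
      ((l.sum + 1) * T * m.choose G) * k ^ (m - (G + 1)) := by
    refine h2.trans (le_of_eq ?_)
    ring
  have h5 := Nat.le_of_mul_le_mul_right h4 (by positivity)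
  have h6 : m.choose G ≤ m ^ G := Nat.choose_le_pow _ _
  have h7 : m ^ (G + 2) * m ^ G ≤ (l.sum + 1) * T * m ^ G := by
    calc m ^ (G + 2) * m ^ G = k ^ (G + 1) := by
          rw [hk, ← pow_mul, ← pow_add]
          congr 1
          ring
      _ ≤ _ := h5.trans (Nat.mul_le_mul_left _ h6)
  have h8 := Nat.le_of_mul_le_mul_right h7 (by positivity)
  refine le_trans ?_ h8
  have h9 : 4 ≤ m := by nlinarith
  calc 2 ^ (2 * G + 4) = 2 ^ (2 * (G + 2)) := by ring_nf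
    _ = 4 ^ (G + 2) := by rw [pow_mul]; norm_num
    _ ≤ m ^ (G + 2) := Nat.pow_le_pow_left h9 _

/-- the bound for a directed network of size at most `s` -/
theorem directed_mul {K U W V ι : Type} [Field K] [Fintype U] [Fintype W] {A : Matrix U W K}
    {pos : U → ι → Bool} {neg : W → ι → Bool} (N : Net V ι) {s ρ : ℕ} (hN : N.size ≤ s)
    (hρ : ∀ i, rb A pos neg (fun x => x i = true) ≤ ρ) :
    rb A pos neg N.Directed ≤ 2 ^ ((Nat.clog 2 (s + 1) + 2) * Nat.clog 2 (s + 1)) * ρ := by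
  set j := Nat.clog 2 (s + 1) with hj
  have h1 : s + 1 ≤ 2 ^ j := Nat.le_pow_clog (by norm_num) _
  refine (rb_directed N hρ (j := j) (by omega)).trans (Nat.mul_le_mul_right _ ?_)
  rw [pow_mul]
  refine Nat.pow_le_pow_left ?_ _
  have h2 : 2 ^ (j + 2) = 4 * 2 ^ j := by ring
  rw [h2]
  omega

/-- the lower bound for directed networks -/
theorem grid_directed {V ι : Type} (hG : 1 ≤ G)
    (hk : k = ((G + 1) * (G + 1)) ^ 2) (F : (ι → Bool) → Prop)
    (σ : ι → Bool ⊕ (Fin P × GRule G k)) (hF : ∀ x, F (subst σ x) ↔ GReach x) {s : ℕ}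
    {l : List ℕ} (hl : (l.map (· + 1)).prod ≤ P) (S : Strategy (Net V ι) l)
    (hp : S.All fun d => d.size ≤ s)
    (hS : ∀ x, S.run Net.Directed x ↔ F x) : 2 ^ (2 * G + 4) ≤
      (l.sum + 1) * 2 ^ ((Nat.clog 2 (s + 1) + 2) * Nat.clog 2 (s + 1)) :=
  grid_core (K := ℚ) hG hk Net.Directed (fun d _ _ h => d.directed_mono h) F σ hF
    (fun d hd _ _ _ _ _ _ _ _ hρ => directed_mul d hd hρ) hl S hp hS

/-- the lower bound for directed networks in which few variables are negated -/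
theorem grid_lit {V ι : Type} (hG : 1 ≤ G)
    (hk : k = ((G + 1) * (G + 1)) ^ 2) (F : (ι → Bool) → Prop)
    (σ : ι → Bool ⊕ (Fin P × GRule G k)) (hF : ∀ x, F (subst σ x) ↔ GReach x)
    (N : Net V (ι ⊕ ι)) (Z : Finset ι)
    (hZ : ∀ e ∈ N.wires, ∀ i, e.2.2 = Sum.inr i → i ∈ Z) (hP : Z.card + 1 ≤ P)
    (hS : ∀ x, N.Directed (lit x) ↔ F x) : 2 ^ (2 * G + 4) ≤
      (Z.card + 1) * 2 ^ ((Nat.clog 2 (N.size + 1) + 2) * Nat.clog 2 (N.size + 1)) := by
  have h := grid_core (K := ℚ) hG hk (accDev Net.Directed)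
    (accDev_mono fun d _ _ h => d.directed_mono h) F σ hF
    (T := 2 ^ ((Nat.clog 2 (N.size + 1) + 2) * Nat.clog 2 (N.size + 1)))
    (p := fun d => match d with
      | Sum.inl N' => N'.size ≤ N.size
      | Sum.inr _ => True) ?_ (l := [Z.card]) (by simpa using hP) (litStrategy N Z)
      (litStrategy_all N Z le_rfl)
      (fun x => (litStrategy_run (acc := Net.Directed) (acc' := Net.Directed) N Z hZ
        (fun a x h => N.fix_directed h) x).trans (hS x))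
  · simpa using h
  · rintro (d' | i) hd' U W _ _ A pos' neg' ρ hρ
    · exact directed_mul d' hd' hρ
    · refine (hρ i).trans ?_
      exact Nat.le_mul_of_pos_left _ (by positivity)

/-! ### the numbers -/

/-- the side of the grid -/
noncomputable def gpar (ε : ℝ) (n : ℕ) : ℕ := ⌊(n : ℝ) ^ (ε / 14)⌋₊

theorem gpar_le {ε : ℝ} {n : ℕ} : (gpar ε n : ℝ) ≤ (n : ℝ) ^ (ε / 14) :=
  Nat.floor_le (Real.rpow_nonneg (Nat.cast_nonneg n) _)

/-- the number of all the rules fits -/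
theorem rules_le {ε : ℝ} {n : ℕ} (hn : 1 ≤ n) :
    ⌊(n : ℝ) ^ (1 - ε)⌋₊ * gpar ε n ^ 14 ≤ n := by
  have hn' : (0 : ℝ) < n := by exact_mod_cast hn
  have h1 := gpar_le (ε := ε) (n := n)
  have h2 : (⌊(n : ℝ) ^ (1 - ε)⌋₊ : ℝ) ≤ (n : ℝ) ^ (1 - ε) :=
    Nat.floor_le (Real.rpow_nonneg hn'.le _)
  have h3 : (gpar ε n : ℝ) ^ 14 ≤ (n : ℝ) ^ ε := by
    calc (gpar ε n : ℝ) ^ 14 ≤ ((n : ℝ) ^ (ε / 14)) ^ 14 :=
          pow_le_pow_left₀ (by positivity) h1 14
      _ = (n : ℝ) ^ ε := by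
        rw [← Real.rpow_natCast, ← Real.rpow_mul hn'.le]
        congr 1
        push_cast
        ring
  have h4 : (⌊(n : ℝ) ^ (1 - ε)⌋₊ : ℝ) * (gpar ε n : ℝ) ^ 14 ≤ n := by
    calc _ ≤ (n : ℝ) ^ (1 - ε) * (n : ℝ) ^ ε :=
          mul_le_mul h2 h3 (by positivity) (Real.rpow_nonneg hn'.le _)
      _ = n := by
        rw [← Real.rpow_add hn']
        simp
  exact_mod_cast h4

/-- the number of all the elements fits -/
theorem elements_le {ε : ℝ} (hε : 0 < ε) : ∀ᶠ n : ℕ in atTop,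
    ⌊(n : ℝ) ^ (1 - ε)⌋₊ * gpar ε n ^ 6 + 1 + 1 ≤ n := by
  have hlim : Tendsto (fun n : ℕ => (n : ℝ) ^ (8 * ε / 14)) atTop atTop :=
    (tendsto_rpow_atTop (by positivity)).comp tendsto_natCast_atTop_atTop
  filter_upwards [hlim.eventually_ge_atTop 2, eventually_ge_atTop 4] with n hn h4n
  have hn1 : 1 ≤ n := by omega
  have hn' : (0 : ℝ) < n := by exact_mod_cast hn1
  have h1 := gpar_le (ε := ε) (n := n)
  have h2 : (⌊(n : ℝ) ^ (1 - ε)⌋₊ : ℝ) ≤ (n : ℝ) ^ (1 - ε) :=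
    Nat.floor_le (Real.rpow_nonneg hn'.le _)
  have h3 : (gpar ε n : ℝ) ^ 6 ≤ (n : ℝ) ^ (6 * ε / 14) := by
    calc (gpar ε n : ℝ) ^ 6 ≤ ((n : ℝ) ^ (ε / 14)) ^ 6 :=
          pow_le_pow_left₀ (by positivity) h1 6
      _ = (n : ℝ) ^ (6 * ε / 14) := by
        rw [← Real.rpow_natCast, ← Real.rpow_mul hn'.le]
        congr 1
        push_cast
        ring
  have h4 : (⌊(n : ℝ) ^ (1 - ε)⌋₊ : ℝ) * (gpar ε n : ℝ) ^ 6 ≤ n / 2 := by
    have h6 : (n : ℝ) ^ (1 - ε) * (n : ℝ) ^ (6 * ε / 14) * (n : ℝ) ^ (8 * ε / 14) = n := by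
      rw [← Real.rpow_add hn', ← Real.rpow_add hn']
      have : 1 - ε + 6 * ε / 14 + 8 * ε / 14 = 1 := by ring
      rw [this, Real.rpow_one]
    have h7 : (⌊(n : ℝ) ^ (1 - ε)⌋₊ : ℝ) * (gpar ε n : ℝ) ^ 6 ≤
        (n : ℝ) ^ (1 - ε) * (n : ℝ) ^ (6 * ε / 14) :=
      mul_le_mul h2 h3 (by positivity) (Real.rpow_nonneg hn'.le _)
    have h8 : 0 ≤ (n : ℝ) ^ (1 - ε) * (n : ℝ) ^ (6 * ε / 14) :=
      mul_nonneg (Real.rpow_nonneg hn'.le _) (Real.rpow_nonneg hn'.le _)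
    nlinarith
  have h5 : ((⌊(n : ℝ) ^ (1 - ε)⌋₊ * gpar ε n ^ 6 + 1 + 1 : ℕ) : ℝ) ≤ n := by
    push_cast
    have h9 : (4 : ℝ) ≤ n := by exact_mod_cast h4n
    linarith
  exact_mod_cast h5

/-- the final size bound -/
theorem grid_size_bound {ε : ℝ} (hε : 0 < ε) : ∀ᶠ n : ℕ in atTop, ∀ L s : ℕ,
    (L : ℝ) ≤ (n : ℝ) ^ (1 - ε) →
    2 ^ (2 * gpar ε n + 2) ≤ L * 2 ^ ((Nat.clog 2 (s + 1) + 2) * Nat.clog 2 (s + 1)) →
    (2 : ℝ) ^ ((n : ℝ) ^ (ε / 42)) ≤ s := by
  have hlim : Tendsto (fun n : ℕ => (n : ℝ) ^ (ε / 42)) atTop atTop :=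
    (tendsto_rpow_atTop (by positivity)).comp tendsto_natCast_atTop_atTop
  have hlog : ∀ᶠ n : ℕ in atTop, Real.log (n : ℝ) ≤ Real.log 2 * (n : ℝ) ^ (ε / 42) := by
    have h := (isLittleO_log_rpow_atTop (show 0 < ε / 42 by positivity)).bound
      (show 0 < Real.log 2 from Real.log_pos (by norm_num))
    have h' := tendsto_natCast_atTop_atTop (R := ℝ) |>.eventually h
    filter_upwards [h', eventually_ge_atTop 1] with n hn h1
    have h2 : (1 : ℝ) ≤ n := by exact_mod_cast h1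
    rw [Real.norm_of_nonneg (Real.log_nonneg h2),
      Real.norm_of_nonneg (Real.rpow_nonneg (by linarith) _)] at hn
    exact hn
  filter_upwards [hlim.eventually_ge_atTop 4, hlog, eventually_ge_atTop 1] with n hy hlogn hn
    L s hL h
  have hn' : (1 : ℝ) ≤ n := by exact_mod_cast hn
  have hn0 : (0 : ℝ) < n := by linarith
  set y := (n : ℝ) ^ (ε / 42) with hydef
  set j := Nat.clog 2 (s + 1) with hj
  by_contra hcon
  push Not at hcon
  have hlog2 : 0 < Real.log 2 := Real.log_pos (by norm_num)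
  -- the number `j` is small
  have hjy : (j : ℝ) ≤ y + 1 := by
    rcases Nat.eq_zero_or_pos s with hs | hs
    · rw [hj, hs]
      simp
      linarith
    · have h1 : 2 ^ (j - 1) < s + 1 := Nat.pow_pred_clog_lt_self (by norm_num) (by omega)
      have h2 : ((2 : ℝ)) ^ (((j - 1 : ℕ) : ℝ)) < (2 : ℝ) ^ y := by
        rw [Real.rpow_natCast]
        refine lt_of_le_of_lt ?_ hcon
        have : 2 ^ (j - 1) ≤ s := by omega
        exact_mod_cast this
      have h3 := (Real.rpow_lt_rpow_left_iff (by norm_num : (1 : ℝ) < 2)).1 h2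
      have h4 : (j : ℝ) ≤ ((j - 1 : ℕ) : ℝ) + 1 := by
        exact_mod_cast (by omega : j ≤ j - 1 + 1)
      linarith
  -- take logarithms
  have h1 : (2 : ℝ) ^ (2 * gpar ε n + 2) ≤ n * 2 ^ ((j + 2) * j) := by
    have h2 : ((2 ^ (2 * gpar ε n + 2) : ℕ) : ℝ) ≤ ((L * 2 ^ ((j + 2) * j) : ℕ) : ℝ) := by
      exact_mod_cast h
    push_cast at h2
    have h3 : (L : ℝ) ≤ n := by
      refine hL.trans ?_
      calc (n : ℝ) ^ (1 - ε) ≤ (n : ℝ) ^ (1 : ℝ) :=
            Real.rpow_le_rpow_of_exponent_le hn' (by linarith)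
        _ = n := Real.rpow_one _
    exact h2.trans (mul_le_mul_of_nonneg_right h3 (by positivity))
  have h2 : ((2 * gpar ε n + 2 : ℕ) : ℝ) * Real.log 2 ≤
      Real.log n + (((j + 2) * j : ℕ) : ℝ) * Real.log 2 := by
    have := Real.log_le_log (by positivity) h1
    rw [Real.log_pow, Real.log_mul hn0.ne' (by positivity), Real.log_pow] at this
    exact this
  have h3 : ((2 * gpar ε n + 2 : ℕ) : ℝ) ≤ y + (((j + 2) * j : ℕ) : ℝ) := by
    have h4 : ((2 * gpar ε n + 2 : ℕ) : ℝ) * Real.log 2 ≤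
        (y + (((j + 2) * j : ℕ) : ℝ)) * Real.log 2 := by
      refine h2.trans ?_
      rw [add_mul]
      have : y * Real.log 2 = Real.log 2 * y := mul_comm _ _
      linarith
    exact le_of_mul_le_mul_right h4 hlog2
  have h4 : y ^ 3 < (gpar ε n : ℝ) + 1 := by
    have h5 : y ^ 3 = (n : ℝ) ^ (ε / 14) := by
      rw [hydef, ← Real.rpow_natCast, ← Real.rpow_mul hn0.le]
      congr 1
      push_cast
      ring
    rw [h5]
    exact Nat.lt_floor_add_one _
  have h5 : (((j + 2) * j : ℕ) : ℝ) ≤ (y + 3) * (y + 1) := by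
    push_cast
    have hj0 : (0 : ℝ) ≤ j := Nat.cast_nonneg _
    nlinarith
  push_cast at h3 h5
  nlinarith [mul_nonneg (by linarith : (0 : ℝ) ≤ y - 4) (by positivity : (0 : ℝ) ≤ y ^ 2)]

end Pool.Agent.J6H7.Chain
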