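import Pool.Agent.J6H7.Chain.Peb

/-!
# The reversible pebble game on a path

With `d` pebbles the last node of a path with `2 ^ d` nodes cannot be reached.
-/

set_option autoImplicit false

namespace Pool.Agent.J6H7.Chain

open Finset

/-- A move with at most `n` pebbles on the path `a`, `a + 1`, `a + 2`, ... -/
def PMove (a n : ℕ) (S S' : Finset ℕ) : Prop :=
  ∃ v, (S' = insert v S ∨ S = insert v S') ∧ (v = a ∨ (a < v ∧ v - 1 ∈ S ∧ v - 1 ∈ S')) ∧
    S.card ≤ n ∧ S'.card ≤ n

theorem PMove.symm {a n : ℕ} {S S' : Finset ℕ} (h : PMove a n S S') : PMove a n S' S := by
  obtain ⟨v, h1, h2, h3, h4⟩ := h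
  refine ⟨v, h1.symm, ?_, h4, h3⟩
  rcases h2 with h2 | ⟨h2, h5, h6⟩
  · exact Or.inl h2
  · exact Or.inr ⟨h2, h6, h5⟩

theorem pmove_rev {a n : ℕ} {S S' : Finset ℕ} (h : Relation.ReflTransGen (PMove a n) S S') :
    Relation.ReflTransGen (PMove a n) S' S := by
  induction h with
  | refl => exact Relation.ReflTransGen.refl
  | tail _ hbc ih => exact Relation.ReflTransGen.head hbc.symm ih

theorem pmove_bound (n : ℕ) : ∀ (a : ℕ) (S : Finset ℕ),
    Relation.ReflTransGen (PMove a n) ∅ S → ∀ v ∈ S, a ≤ v ∧ v + 1 < a + 2 ^ n := by
  induction n with
  | zero =>
    intro a S hS v hv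
    cases hS with
    | refl => simp at hv
    | tail _ h =>
      obtain ⟨_, _, _, _, h⟩ := h
      have : S = ∅ := card_eq_zero.1 (by omega)
      simp [this] at hv
  | succ n ih =>
    intro a S hS
    -- the invariant
    have inv : (∀ v ∈ S, a ≤ v) ∧ (S.filter (fun v => a + 2 ^ n ≤ v) = ∅ ∨
        ((∃ L, a + 2 ^ n - 1 ∈ L ∧
          Relation.ReflTransGen (PMove a n) L (S.filter (fun v => v < a + 2 ^ n))) ∧
        Relation.ReflTransGen (PMove (a + 2 ^ n) n) ∅ (S.filter (fun v => a + 2 ^ n ≤ v)))) := by
      induction hS with
      | refl => exact ⟨by simp, Or.inl (by simp)⟩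
      | @tail S S' _ hstep ihS =>
        obtain ⟨hge, ihS⟩ := ihS
        obtain ⟨v, h1, h2, h3, h4⟩ := hstep
        have hva : a ≤ v := by rcases h2 with h2 | h2 <;> omega
        have hpos : 0 < 2 ^ n := by positivity
        have hsplit : ∀ T : Finset ℕ, (T.filter (fun v => v < a + 2 ^ n)).card +
            (T.filter (fun v => a + 2 ^ n ≤ v)).card = T.card := by
          intro T
          rw [← Finset.card_filter_add_card_filter_not (s := T) (fun v => v < a + 2 ^ n)]
          congr 2
          ext u
          simp
        refine ⟨?_, ?_⟩
        · intro u hu
          rcases h1 with h1 | h1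
          · rw [h1, mem_insert] at hu
            rcases hu with rfl | hu
            · exact hva
            · exact hge u hu
          · exact hge u (by rw [h1]; exact mem_insert_of_mem hu)
        · by_cases hv : v < a + 2 ^ n
          · -- a move in the left part
            have hR : S'.filter (fun v => a + 2 ^ n ≤ v) = S.filter (fun v => a + 2 ^ n ≤ v) := by
              rcases h1 with h1 | h1
              · rw [h1, filter_insert, if_neg (by omega)]
              · rw [h1, filter_insert, if_neg (by omega)]
            rw [hR]
            rcases ihS with ihS | ⟨⟨L, hL1, hL2⟩, ihS⟩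
            · exact Or.inl ihS
            · by_cases hRe : S.filter (fun v => a + 2 ^ n ≤ v) = ∅
              · exact Or.inl hRe
              · right
                have hc : 0 < (S.filter (fun v => a + 2 ^ n ≤ v)).card :=
                  card_pos.2 (nonempty_iff_ne_empty.2 hRe)
                refine ⟨⟨L, hL1, hL2.tail ⟨v, ?_, ?_, ?_, ?_⟩⟩, ihS⟩
                · rcases h1 with h1 | h1
                  · left
                    rw [h1, filter_insert, if_pos hv]
                  · right
                    rw [h1, filter_insert, if_pos hv]
                · rcases h2 with h2 | ⟨h2, h5, h6⟩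
                  · exact Or.inl h2
                  · exact Or.inr ⟨h2, mem_filter.2 ⟨h5, by omega⟩, mem_filter.2 ⟨h6, by omega⟩⟩
                · have := hsplit S
                  omega
                · have := hsplit S'
                  rw [hR] at this
                  omega
          · -- a move in the right part
            push Not at hv
            have hLf : S'.filter (fun v => v < a + 2 ^ n) = S.filter (fun v => v < a + 2 ^ n) := by
              rcases h1 with h1 | h1
              · rw [h1, filter_insert, if_neg (by omega)]
              · rw [h1, filter_insert, if_neg (by omega)]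
            have h2' : a < v ∧ v - 1 ∈ S ∧ v - 1 ∈ S' := by
              rcases h2 with h2 | h2
              · omega
              · exact h2
            obtain ⟨h5, h6, h7⟩ := h2'
            by_cases hRe : S.filter (fun v => a + 2 ^ n ≤ v) = ∅
            · -- the first pebble in the right part
              have hnot : ∀ u ∈ S, ¬ a + 2 ^ n ≤ u := by
                intro u hu hu'
                have : u ∈ S.filter (fun v => a + 2 ^ n ≤ v) := mem_filter.2 ⟨hu, hu'⟩
                rw [hRe] at this
                simp at this
              have hvS : v ∉ S := fun h => hnot v h hv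
              have h1' : S' = insert v S := by
                rcases h1 with h1 | h1
                · exact h1
                · exact absurd (by rw [h1]; exact mem_insert_self _ _) hvS
              have hv2 : v = a + 2 ^ n := by
                have := hnot (v - 1) h6
                omega
              have hvm : a + 2 ^ n - 1 ∈ S.filter (fun v => v < a + 2 ^ n) :=
                mem_filter.2 ⟨by rw [← hv2]; exact h6, by omega⟩
              have hR' : S'.filter (fun v => a + 2 ^ n ≤ v) = {a + 2 ^ n} := by
                rw [h1', filter_insert, if_pos hv, hRe, hv2]
                rfl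
              right
              refine ⟨⟨_, ?_, by rw [hLf]⟩, ?_⟩
              · exact hvm
              · rw [hR']
                have hc := card_pos.2 ⟨_, hvm⟩
                have hs := hsplit S'
                rw [hR', hLf, card_singleton] at hs
                exact Relation.ReflTransGen.single
                  ⟨a + 2 ^ n, Or.inl rfl, Or.inl rfl, by simp, by simp; omega⟩
            · rcases ihS with ihS | ⟨⟨L, hL1, hL2⟩, ihS⟩
              · exact absurd ihS hRe
              · right
                have hLne : S.filter (fun v => v < a + 2 ^ n) ≠ ∅ := by
                  intro he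
                  rw [he] at hL2
                  have := (ih a L (pmove_rev hL2) _ hL1).2
                  omega
                have hc : 0 < (S.filter (fun v => v < a + 2 ^ n)).card :=
                  card_pos.2 (nonempty_iff_ne_empty.2 hLne)
                refine ⟨⟨L, hL1, by rw [hLf]; exact hL2⟩, ihS.tail ⟨v, ?_, ?_, ?_, ?_⟩⟩
                · rcases h1 with h1 | h1
                  · left
                    rw [h1, filter_insert, if_pos hv]
                  · right
                    rw [h1, filter_insert, if_pos hv]
                · by_cases hva' : v = a + 2 ^ n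
                  · exact Or.inl hva'
                  · exact Or.inr ⟨by omega, mem_filter.2 ⟨h6, by omega⟩,
                      mem_filter.2 ⟨h7, by omega⟩⟩
                · have := hsplit S
                  omega
                · have := hsplit S'
                  rw [hLf] at this
                  omega
    obtain ⟨hge, inv⟩ := inv
    intro v hv
    refine ⟨hge v hv, ?_⟩
    by_cases hlt : v < a + 2 ^ n
    · have : 0 < 2 ^ n := by positivity
      rw [pow_succ]
      omega
    · have hmem : v ∈ S.filter (fun v => a + 2 ^ n ≤ v) := mem_filter.2 ⟨hv, by omega⟩
      rcases inv with inv | ⟨_, inv⟩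
      · rw [inv] at hmem
        simp at hmem
      · have := (ih _ _ inv v hmem).2
        rw [pow_succ]
        omega

/-- the predecessors of the nodes of a path -/
def pathPr (m : ℕ) (v : Fin m) : Finset (Fin m) := univ.filter fun u => u.1 + 1 = v.1

theorem pathPr_irrefl {m : ℕ} (v : Fin m) : v ∉ pathPr m v := by
  simp [pathPr]

/-- The last node of a path with `2 ^ d` nodes cannot be reached with `d` pebbles. -/
theorem path_pebbled {m d : ℕ} (hm : m = 2 ^ d) {S : Finset (Fin m)}
    (h : Pebbled (pathPr m) d S) (v : Fin m) (hv : v.1 + 1 = m) : v ∉ S := by
  have key : Relation.ReflTransGen (PMove 0 d) ∅ (S.map Fin.valEmbedding) := by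
    unfold Pebbled at h
    induction h with
    | refl => simpa using Relation.ReflTransGen.refl
    | @tail S S' _ hstep ih =>
      refine ih.tail ?_
      obtain ⟨v, h1, h2, h3, h4, h5⟩ := hstep
      refine ⟨v.1, ?_, ?_, by simpa using h4, by simpa using h5⟩
      · rcases h1 with h1 | h1
        · left; rw [h1, map_insert]; rfl
        · right; rw [h1, map_insert]; rfl
      · by_cases hv0 : v.1 = 0
        · exact Or.inl hv0
        · right
          have hm' : (⟨v.1 - 1, by omega⟩ : Fin m) ∈ pathPr m v := by
            simp only [pathPr, mem_filter, mem_univ, true_and]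
            omega
          refine ⟨by omega, ?_, ?_⟩
          · exact mem_map.2 ⟨_, h2 hm', rfl⟩
          · exact mem_map.2 ⟨_, h3 hm', rfl⟩
  intro hvS
  have := (pmove_bound d 0 _ key v.1 (mem_map.2 ⟨v, hvS, rfl⟩)).2
  omega

end Pool.Agent.J6H7.Chain
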