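import Pool.Agent.J6H7.Chain.Rank

/-!
# The matrix of a reversible pebble game

`V` is the set of nodes of an acyclic graph, `pr v` is the set of the predecessors of `v`. The
rows of the matrix are the maps `x : V → Fin k`, the columns are the sets of pairs `(v, i)`.
-/

set_option autoImplicit false
set_option linter.unusedSectionVars false

namespace Pool.Agent.J6H7.Chain

open Finset Matrix

section pebbling

variable {V : Type} [Fintype V] [DecidableEq V]

/-- One move of the reversible pebble game with at most `d` pebbles: a pebble is put on a node, or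
is removed from a node, all of whose predecessors have pebbles. -/
def Move (pr : V → Finset V) (d : ℕ) (S S' : Finset V) : Prop :=
  ∃ v, (S' = insert v S ∨ S = insert v S') ∧ pr v ⊆ S ∧ pr v ⊆ S' ∧ S.card ≤ d ∧ S'.card ≤ d

/-- The positions of the pebble game which can be reached. -/
def Pebbled (pr : V → Finset V) (d : ℕ) (S : Finset V) : Prop :=
  Relation.ReflTransGen (Move pr d) ∅ S

variable {pr : V → Finset V} {d : ℕ}

theorem Move.symm {S S' : Finset V} (h : Move pr d S S') : Move pr d S' S := by
  obtain ⟨v, h1, h2, h3, h4, h5⟩ := h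
  exact ⟨v, h1.symm, h3, h2, h5, h4⟩

theorem Pebbled.empty : Pebbled pr d ∅ := Relation.ReflTransGen.refl

theorem Pebbled.card_le {S : Finset V} (h : Pebbled pr d S) : S.card ≤ d := by
  unfold Pebbled at h
  cases h with
  | refl => simp
  | tail _ h =>
    obtain ⟨v, h1, h2, h3, h4, h5⟩ := h
    exact h5

theorem Pebbled.insert {S : Finset V} (h : Pebbled pr d S) {v : V} (hv : pr v ⊆ S)
    (hc : (insert v S).card ≤ d) : Pebbled pr d (insert v S) :=
  Relation.ReflTransGen.tail h ⟨v, Or.inl rfl, hv, hv.trans (subset_insert _ _), h.card_le, hc⟩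

theorem Pebbled.erase {S : Finset V} (h : Pebbled pr d S) {v : V} (hvS : v ∈ S)
    (hv : pr v ⊆ S.erase v) : Pebbled pr d (S.erase v) :=
  Relation.ReflTransGen.tail h ⟨v, Or.inr (insert_erase hvS).symm, hv.trans (erase_subset _ _),
    hv, h.card_le, (card_erase_le).trans h.card_le⟩

end pebbling

section matrix

variable {K : Type} [Field K] {V : Type} [Fintype V] [DecidableEq V] {k : ℕ}

/-- the contribution of the set `S` to the entry at `x`, `y` -/
def term (K : Type) [Field K] (S : Finset V) (x : V → Fin k) (y : V × Fin k → Bool) : K :=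
  ∏ v ∈ univ \ S, if y (v, x v) = true then 0 else -1

open Classical in
/-- the matrix of the pebble game -/
noncomputable def pebMat (K : Type) [Field K] (pr : V → Finset V) (d k : ℕ) :
    Matrix (V → Fin k) (V × Fin k → Bool) K :=
  Matrix.of fun x y => ∑ S ∈ univ.filter (fun S => Pebbled pr d S), term K S x y

/-- the right inverse -/
def pebInv (K : Type) [Field K] (V : Type) [Fintype V] [DecidableEq V] (k : ℕ) :
    Matrix (V × Fin k → Bool) (V → Fin k) K :=
  Matrix.of fun y z => ∑ T ∈ (univ : Finset V).powerset,
    if y = (fun p => decide (p.1 ∈ T ∧ p.2 = z p.1)) then (-1) ^ (univ \ T).card else 0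

theorem sum_term_inv (S : Finset V) (x z : V → Fin k) :
    ∑ y, term K S x y * pebInv K V k y z = if S = ∅ ∧ x = z then 1 else 0 := by
  classical
  have h1 : ∀ y, term K S x y * pebInv K V k y z = ∑ T ∈ (univ : Finset V).powerset,
      if y = (fun p => decide (p.1 ∈ T ∧ p.2 = z p.1)) then
        term K S x y * (-1) ^ (univ \ T).card else 0 := by
    intro y
    simp only [pebInv, of_apply, Finset.mul_sum, mul_ite, mul_zero]
  rw [Finset.sum_congr rfl fun y _ => h1 y, Finset.sum_comm]
  simp only [Finset.sum_ite_eq', mem_univ, if_true]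
  -- the sum over `T` is a product
  have h2 : ∀ T ∈ (univ : Finset V).powerset,
      term K S x (fun p => decide (p.1 ∈ T ∧ p.2 = z p.1)) * (-1) ^ (univ \ T).card =
      (∏ v ∈ T, if v ∈ S then (1 : K) else if x v = z v then 0 else -1) *
      ∏ v ∈ univ \ T, if v ∈ S then (-1 : K) else 1 := by
    intro T _
    have h3 : term K S x (fun p => decide (p.1 ∈ T ∧ p.2 = z p.1)) =
        ∏ v, if v ∈ S then (1 : K) else if v ∈ T ∧ x v = z v then 0 else -1 := by
      unfold term
      rw [← Finset.prod_filter_mul_prod_filter_not univ (fun v => v ∈ S)]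
      rw [Finset.prod_congr (s₂ := univ.filter fun v => v ∈ S) rfl
        (fun v hv => if_pos (Finset.mem_filter.1 hv).2), Finset.prod_const_one, one_mul]
      refine Finset.prod_congr (by ext v; simp) ?_
      intro v hv
      rw [if_neg (Finset.mem_filter.1 hv).2]
      simp
    have h4 : ((-1 : K)) ^ (univ \ T).card = ∏ v, if v ∈ T then (1 : K) else -1 := by
      rw [← Finset.prod_filter_mul_prod_filter_not univ (fun v => v ∈ T)]
      rw [Finset.prod_congr (s₂ := univ.filter fun v => v ∈ T) rfl
        (fun v hv => if_pos (Finset.mem_filter.1 hv).2), Finset.prod_const_one, one_mul]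
      rw [Finset.prod_congr (s₂ := univ.filter fun v => v ∉ T) rfl
        (fun v hv => if_neg (Finset.mem_filter.1 hv).2), Finset.prod_const]
      congr 2
      ext v; simp
    rw [h3, h4, ← Finset.prod_mul_distrib,
      ← Finset.prod_filter_mul_prod_filter_not univ (fun v => v ∈ T)]
    congr 1
    · refine Finset.prod_congr (by ext v; simp) ?_
      intro v hv
      have hv' : v ∈ T := hv
      simp [hv']
    · refine Finset.prod_congr (by ext v; simp) ?_
      intro v hv
      have hv' : v ∉ T := by simpa using hv
      by_cases hS : v ∈ S <;> simp [hv', hS]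
  rw [Finset.sum_congr rfl h2, ← Finset.prod_add]
  by_cases h : S = ∅ ∧ x = z
  · rw [if_pos h]
    obtain ⟨rfl, rfl⟩ := h
    refine Finset.prod_eq_one fun v _ => ?_
    simp
  · rw [if_neg h]
    by_cases hS : S = ∅
    · subst hS
      have hxz : x ≠ z := fun h' => h ⟨rfl, h'⟩
      obtain ⟨v, hv⟩ := Function.ne_iff.1 hxz
      refine Finset.prod_eq_zero (mem_univ v) ?_
      simp [hv]
    · obtain ⟨v, hv⟩ := Finset.nonempty_iff_ne_empty.2 hS
      refine Finset.prod_eq_zero (mem_univ v) ?_
      simp [hv]

theorem pebMat_mul_inv (pr : V → Finset V) (d : ℕ) : pebMat K pr d k * pebInv K V k = 1 := by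
  classical
  ext x z
  simp only [Matrix.mul_apply, pebMat, of_apply, Finset.sum_mul]
  rw [Finset.sum_comm]
  rw [Finset.sum_congr rfl fun S _ => sum_term_inv S x z]
  rw [Finset.sum_eq_single ∅]
  · simp [Matrix.one_apply]
  · intro S _ hS
    rw [if_neg (fun h => hS h.1)]
  · intro h
    exact absurd (Finset.mem_filter.2 ⟨mem_univ _, Pebbled.empty⟩) h

/-- The matrix has full rank. -/
theorem pow_le_rank_pebMat (pr : V → Finset V) (d : ℕ) :
    k ^ Fintype.card V ≤ (pebMat K pr d k).rank := by
  classical
  have h := rank_mul_le_left (pebMat K pr d k) (pebInv K V k)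
  rw [pebMat_mul_inv, rank_one] at h
  simpa using h

theorem term_eq_zero {S : Finset V} {x : V → Fin k} {y : V × Fin k → Bool} {v : V} (hv : v ∉ S)
    (hy : y (v, x v) = true) : term K S x y = 0 := by
  unfold term
  refine Finset.prod_eq_zero (i := v) (by simp [hv]) ?_
  rw [if_pos hy]

theorem term_insert {S : Finset V} {x : V → Fin k} {y : V × Fin k → Bool} {v : V} (hv : v ∉ S)
    (hy : y (v, x v) = false) : term K S x y + term K (insert v S) x y = 0 := by
  unfold term
  have h1 : univ \ S = insert v (univ \ insert v S) := by
    ext u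
    simp only [mem_sdiff, mem_univ, true_and, mem_insert, not_or]
    constructor
    · intro h
      by_cases huv : u = v
      · exact Or.inl huv
      · exact Or.inr ⟨huv, h⟩
    · rintro (rfl | h)
      · exact hv
      · exact h.2
  have h2 : v ∉ univ \ insert v S := by simp
  rw [h1, Finset.prod_insert h2, hy]
  simp

/-- On the pairs where all the predecessors of `v` are true and `v` is false only the maximal
positions contribute. -/
theorem pebMat_apply_of {pr : V → Finset V} {d : ℕ} {x : V → Fin k} {y : V × Fin k → Bool} {v : V}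
    (hvv : v ∉ pr v) (hpr : ∀ u ∈ pr v, y (u, x u) = true) (hy : y (v, x v) = false) :
    pebMat K pr d k x y =
      ∑ S ∈ (univ : Finset V).powersetCard d,
        (open Classical in if Pebbled pr d S ∧ v ∉ S then term K S x y else 0) := by
  classical
  have h0 : pebMat K pr d k x y =
      ∑ S ∈ univ.filter (fun S => Pebbled pr d S), term K S x y := rfl
  rw [h0, ← Finset.sum_filter_add_sum_filter_not (univ.filter (fun S => Pebbled pr d S))
    (fun S => S.card = d ∧ v ∉ S)]
  have h1 : ∑ S ∈ (univ.filter (fun S => Pebbled pr d S)).filter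
      (fun S => ¬ (S.card = d ∧ v ∉ S)), term K S x y = 0 := by
    rw [← Finset.sum_filter_add_sum_filter_not _ (fun S => pr v ⊆ S)]
    have h2 : ∑ S ∈ ((univ.filter (fun S => Pebbled pr d S)).filter
        (fun S => ¬ (S.card = d ∧ v ∉ S))).filter (fun S => ¬ pr v ⊆ S), term K S x y = 0 := by
      refine Finset.sum_eq_zero fun S hS => ?_
      rw [Finset.mem_filter, Finset.not_subset] at hS
      obtain ⟨_, u, hu, huS⟩ := hS
      exact term_eq_zero huS (hpr u hu)
    rw [h2, add_zero]
    have hmem : ∀ S : Finset V, S ∈ ((univ.filter (fun S => Pebbled pr d S)).filter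
        (fun S => ¬ (S.card = d ∧ v ∉ S))).filter (fun S => pr v ⊆ S) ↔
        Pebbled pr d S ∧ (v ∉ S → S.card ≠ d) ∧ pr v ⊆ S := by
      intro S
      simp only [Finset.mem_filter, mem_univ, true_and]
      tauto
    refine Finset.sum_involution (fun S _ => if v ∈ S then S.erase v else insert v S) ?_ ?_ ?_ ?_
    · intro S hS
      by_cases hv : v ∈ S
      · simp only [hv, if_true]
        have := term_insert (K := K) (S := S.erase v) (x := x) (y := y) (v := v)
          (Finset.notMem_erase v S) hy
        rw [insert_erase hv] at this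
        rw [add_comm]
        exact this
      · simp only [hv, if_false]
        exact term_insert hv hy
    · intro S hS _
      by_cases hv : v ∈ S
      · simp only [hv, if_true]
        exact fun h => by
          have := Finset.notMem_erase v S
          rw [h] at this
          exact this hv
      · simp only [hv, if_false]
        exact fun h => hv (by rw [← h]; exact mem_insert_self _ _)
    · intro S hS
      rw [hmem] at hS
      obtain ⟨hP, hd, hp⟩ := hS
      by_cases hv : v ∈ S
      · simp only [hv, if_true]
        have hp' : pr v ⊆ S.erase v := by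
          intro u hu
          rw [mem_erase]
          exact ⟨fun h => hvv (h ▸ hu), hp hu⟩
        rw [hmem]
        refine ⟨hP.erase hv hp', ?_, hp'⟩
        intro _
        have h3 := hP.card_le
        have h4 := Finset.card_erase_lt_of_mem hv
        omega
      · simp only [hv, if_false]
        rw [hmem]
        have h3 := hd hv
        have h4 := hP.card_le
        have h5 : (insert v S).card ≤ d := by
          rw [card_insert_of_notMem hv]
          omega
        exact ⟨hP.insert hp h5, fun h => absurd (mem_insert_self v S) h,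
          hp.trans (subset_insert _ _)⟩
    · intro S hS
      by_cases hv : v ∈ S
      · simp [hv, insert_erase]
      · simp [hv]
  rw [h1, add_zero, Finset.filter_filter]
  rw [← Finset.sum_filter]
  refine Finset.sum_congr ?_ (fun _ _ => rfl)
  ext S
  simp only [Finset.mem_filter, mem_univ, true_and, mem_powersetCard, subset_univ]
  tauto

open Classical in
/-- The rank of the contribution of one position. -/
theorem rank_term_le {d : ℕ} {v : V} {c : Fin k} {S : Finset V} (hS : S.card = d) (hvS : v ∉ S)
    {P : (V → Fin k) → Prop} (Q : (V × Fin k → Bool) → Prop) (hP : ∀ x, P x → x v = c) :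
    (Matrix.of fun x y => if P x ∧ Q y then term K S x y else 0).rank ≤
      k ^ (Fintype.card V - (d + 1)) := by
  let φ : (V → Fin k) → ({u : V // u ∉ insert v S} → Fin k) := fun x u => x u.1
  let a : (V → Fin k) → K := fun x => if P x then (1 : K) else 0
  let G : ({u : V // u ∉ insert v S} → Fin k) → (V × Fin k → Bool) → K := fun z y =>
    if Q y then term K S (fun u => if h : u ∉ insert v S then z ⟨u, h⟩ else c) y else 0
  have key : (Matrix.of fun x y => if P x ∧ Q y then term K S x y else 0) =
      Matrix.of fun (x : V → Fin k) (y : V × Fin k → Bool) => a x * G (φ x) y := by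
    ext x y
    simp only [of_apply, a, G, φ]
    by_cases hx : P x
    · by_cases hy : Q y
      · rw [if_pos ⟨hx, hy⟩, if_pos hx, if_pos hy, one_mul]
        unfold term
        refine Finset.prod_congr rfl fun u hu => ?_
        have huS : u ∉ S := by simpa using hu
        by_cases huv : u = v
        · subst huv
          simp [hP x hx]
        · have : u ∉ insert v S := by simp [huv, huS]
          simp only [dif_pos this]
      · rw [if_neg (fun h => hy h.2), if_neg hy, mul_zero]
    · rw [if_neg (fun h => hx h.1), if_neg hx, zero_mul]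
  rw [key]
  refine (rank_factor_le φ a G).trans ?_
  rw [Fintype.card_fun, Fintype.card_fin]
  have hcard : Fintype.card {u : V // u ∉ insert v S} = Fintype.card V - (d + 1) := by
    rw [Fintype.card_subtype_compl]
    congr 1
    rw [Fintype.card_coe, card_insert_of_notMem hvS, hS]
  rw [hcard]

open Classical in
/-- The rank of the part of the matrix which belongs to a rule. -/
theorem rank_rule_le {pr : V → Finset V} {d : ℕ} (v : V) (c : Fin k)
    (hvv : v ∉ pr v) (P : (V → Fin k) → Prop) (Q : (V × Fin k → Bool) → Prop)
    (hP : ∀ x, P x → x v = c) (hQ : ∀ y, Q y → y (v, c) = false)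
    (hPQ : ∀ x y, P x → Q y → ∀ u ∈ pr v, y (u, x u) = true) :
    (Matrix.of fun x y => if P x ∧ Q y then pebMat K pr d k x y else 0).rank ≤
      (Fintype.card V).choose d * k ^ (Fintype.card V - (d + 1)) := by
  have key : (Matrix.of fun x y => if P x ∧ Q y then pebMat K pr d k x y else 0) =
      ∑ S ∈ (univ : Finset V).powersetCard d, Matrix.of fun x y =>
        if Pebbled pr d S ∧ v ∉ S then (if P x ∧ Q y then term K S x y else 0) else 0 := by
    ext x y
    rw [Matrix.sum_apply]
    simp only [of_apply]
    by_cases hxy : P x ∧ Q y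
    · rw [if_pos hxy, pebMat_apply_of hvv (hPQ x y hxy.1 hxy.2)
        (by rw [hP x hxy.1]; exact hQ y hxy.2)]
      refine Finset.sum_congr rfl fun S _ => ?_
      rw [if_pos hxy]
    · rw [if_neg hxy]
      symm
      refine Finset.sum_eq_zero fun S _ => ?_
      rw [if_neg hxy, ite_self]
  rw [key]
  refine (rank_sum_le _ _).trans ?_
  have hterm : ∀ S ∈ (univ : Finset V).powersetCard d, (Matrix.of fun x y =>
      if Pebbled pr d S ∧ v ∉ S then (if P x ∧ Q y then term K S x y else 0) else 0).rank ≤
        k ^ (Fintype.card V - (d + 1)) := by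
    intro S hS
    rw [mem_powersetCard] at hS
    by_cases hvS : Pebbled pr d S ∧ v ∉ S
    · simp only [if_pos hvS]
      exact rank_term_le hS.2 hvS.2 Q hP
    · simp only [if_neg hvS]
      exact (rank_zero (R := K)).le.trans (Nat.zero_le _)
  calc _ ≤ ∑ _S ∈ (univ : Finset V).powersetCard d, k ^ (Fintype.card V - (d + 1)) :=
        Finset.sum_le_sum hterm
    _ = _ := by simp [card_powersetCard]

open Classical in
/-- The part of the matrix which belongs to a goal. -/
theorem goal_eq_zero {pr : V → Finset V} {d : ℕ} (t : V) (ht : ∀ S, Pebbled pr d S → t ∉ S)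
    {x : V → Fin k} {y : V × Fin k → Bool} (hy : y (t, x t) = true) :
    pebMat K pr d k x y = 0 := by
  simp only [pebMat, of_apply]
  refine Finset.sum_eq_zero fun S hS => ?_
  rw [Finset.mem_filter] at hS
  exact term_eq_zero (ht S hS.2) hy

/-- **The rank of the part of the matrix which belongs to a variable**, which is a rule or a
goal. -/
theorem rb_var_le {ι : Type} {pr : V → Finset V} {d : ℕ}
    (hvv : ∀ v, v ∉ pr v) (t : V) (ht : ∀ S, Pebbled pr d S → t ∉ S)
    (pos : (V → Fin k) → ι → Bool) (neg : (V × Fin k → Bool) → ι → Bool) (i : ι)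
    (hi : (∀ x y, pos x i = true → neg y i = false → y (t, x t) = true) ∨
      ∃ (v : V) (c : Fin k), (∀ x, pos x i = true → x v = c) ∧
        (∀ y, neg y i = false → y (v, c) = false) ∧
        ∀ x y, pos x i = true → neg y i = false → ∀ u ∈ pr v, y (u, x u) = true) :
    rb (pebMat K pr d k) pos neg (fun z => z i = true) ≤
      (Fintype.card V).choose d * k ^ (Fintype.card V - (d + 1)) := by
  classical
  rcases hi with hi | ⟨v, c, h1, h2, h3⟩
  · have : mask (pebMat K pr d k) pos neg (fun z => z i = true) = 0 := by
      ext x y
      simp only [mask, of_apply, Matrix.zero_apply]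
      by_cases h : pos x i = true ∧ ¬ neg y i = true
      · rw [if_pos h]
        exact goal_eq_zero t ht (hi x y h.1 (by simpa using h.2))
      · rw [if_neg h]
    unfold rb
    rw [this, rank_zero]
    exact Nat.zero_le _
  · have := rank_rule_le (K := K) (pr := pr) (d := d) v c (hvv v) (fun x => pos x i = true)
      (fun y => ¬ neg y i = true) h1 (fun y hy => h2 y (by simpa using hy))
      (fun x y hx hy => h3 x y hx (by simpa using hy))
    unfold rb mask
    convert this

end matrix

end Pool.Agent.J6H7.Chain
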