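import Pool.Agent.J6H7.Chain.Defs

/-!
# The rank measure

For a matrix `A`, whose rows `u` are marked with inputs `pos u` and whose columns `w` are marked
with inputs `neg w`, and for a predicate `g` on the inputs, `rb g` is the rank of the part of the
matrix in the rows with `g (pos u)` and the columns without `g (neg w)`.
-/

set_option autoImplicit false
set_option linter.unusedSectionVars false

namespace Pool.Agent.J6H7.Chain

open Finset Matrix

variable {K U W : Type} [Field K] [Fintype U] [Fintype W]

theorem rank_add_le' (M N : Matrix U W K) : (M + N).rank ≤ M.rank + N.rank := by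
  unfold Matrix.rank
  rw [Matrix.mulVecLin_add]
  refine (Submodule.finrank_mono (LinearMap.range_add_le _ _)).trans ?_
  exact Submodule.finrank_add_le_finrank_add_finrank _ _

theorem rank_sum_le {T : Type*} (s : Finset T) (M : T → Matrix U W K) :
    (∑ t ∈ s, M t).rank ≤ ∑ t ∈ s, (M t).rank := by
  classical
  induction s using Finset.induction_on with
  | empty => simp
  | insert a s ha ih =>
    rw [sum_insert ha, sum_insert ha]
    exact (rank_add_le' _ _).trans (Nat.add_le_add_left ih _)

theorem rank_list_sum_le {T : Type*} (s : List T) (M : T → Matrix U W K) :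
    ((s.map M).sum).rank ≤ (s.map fun t => (M t).rank).sum := by
  induction s with
  | nil => simp
  | cons a s ih =>
    simp only [List.map_cons, List.sum_cons]
    exact (rank_add_le' _ _).trans (Nat.add_le_add_left ih _)

/-- Scaling the rows and the columns does not increase the rank. -/
theorem rank_scale_le (M : Matrix U W K) (a : U → K) (b : W → K) :
    (Matrix.of fun u w => a u * M u w * b w).rank ≤ M.rank := by
  classical
  have h : (Matrix.of fun u w => a u * M u w * b w) = diagonal a * M * diagonal b := by
    ext u w
    simp [Matrix.mul_diagonal, Matrix.diagonal_mul]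
  rw [h]
  exact (rank_mul_le_left _ _).trans (rank_mul_le_right _ _)

/-- A matrix which factors through a finite type of rows. -/
theorem rank_factor_le {T : Type*} [Fintype T] (φ : U → T) (a : U → K) (G : T → W → K) :
    (Matrix.of fun u w => a u * G (φ u) w).rank ≤ Fintype.card T := by
  classical
  have h : (Matrix.of fun u w => a u * G (φ u) w) =
      (Matrix.of fun u t => if φ u = t then a u else 0) * (Matrix.of G) := by
    ext u w
    simp [Matrix.mul_apply]
  rw [h]
  exact (rank_mul_le_left _ _).trans (rank_le_card_width _)

section measure

variable {ι : Type} (A : Matrix U W K) (pos : U → ι → Bool) (neg : W → ι → Bool)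

open Classical in
/-- the part of the matrix which is separated by `g` -/
noncomputable def mask (g : (ι → Bool) → Prop) : Matrix U W K :=
  Matrix.of fun u w => if g (pos u) ∧ ¬ g (neg w) then A u w else 0

/-- the rank measure -/
noncomputable def rb (g : (ι → Bool) → Prop) : ℕ := (mask A pos neg g).rank

variable {A pos neg}

theorem rb_congr {g g' : (ι → Bool) → Prop} (h : ∀ x, g x ↔ g' x) :
    rb A pos neg g = rb A pos neg g' := by
  have : g = g' := funext fun x => propext (h x)
  rw [this]

theorem rb_false : rb A pos neg (fun _ => False) = 0 := by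
  unfold rb mask
  simp only [false_and, if_false]
  exact rank_zero

theorem rb_true : rb A pos neg (fun _ => True) = 0 := by
  unfold rb mask
  simp only [not_true_eq_false, and_false, if_false]
  exact rank_zero

theorem rb_const (c : Prop) : rb A pos neg (fun _ => c) = 0 := by
  by_cases hc : c
  · simp only [hc]; exact rb_true
  · simp only [hc]; exact rb_false

theorem rb_full {g : (ι → Bool) → Prop} (h1 : ∀ u, g (pos u)) (h2 : ∀ w, ¬ g (neg w)) :
    rb A pos neg g = A.rank := by
  unfold rb mask
  congr 1
  ext u w
  simp [h1 u, h2 w]

theorem rb_or (g h : (ι → Bool) → Prop) :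
    rb A pos neg (fun x => g x ∨ h x) ≤ rb A pos neg g + rb A pos neg h := by
  classical
  unfold rb
  have key : mask A pos neg (fun x => g x ∨ h x) =
      (Matrix.of fun u w => (1 : K) * mask A pos neg g u w * (if h (neg w) then 0 else 1)) +
      Matrix.of fun u w => (if g (pos u) then (0 : K) else 1) * mask A pos neg h u w *
        (if g (neg w) then 0 else 1) := by
    ext u w
    simp only [mask, of_apply, Matrix.add_apply]
    by_cases h1 : g (pos u) <;> by_cases h2 : h (pos u) <;> by_cases h3 : g (neg w) <;>
      by_cases h4 : h (neg w) <;> simp [h1, h2, h3, h4]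
  rw [key]
  refine (rank_add_le' _ _).trans (Nat.add_le_add ?_ ?_)
  · exact rank_scale_le (mask A pos neg g) (fun _ => 1) (fun w => if h (neg w) then 0 else 1)
  · exact rank_scale_le (mask A pos neg h) (fun u => if g (pos u) then (0 : K) else 1)
      (fun w => if g (neg w) then 0 else 1)

theorem rb_and (g h : (ι → Bool) → Prop) :
    rb A pos neg (fun x => g x ∧ h x) ≤ rb A pos neg g + rb A pos neg h := by
  classical
  unfold rb
  have key : mask A pos neg (fun x => g x ∧ h x) =
      (Matrix.of fun u w => (if h (pos u) then (1 : K) else 0) * mask A pos neg g u w * 1) +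
      Matrix.of fun u w => (if g (pos u) then (1 : K) else 0) * mask A pos neg h u w *
        (if g (neg w) then 1 else 0) := by
    ext u w
    simp only [mask, of_apply, Matrix.add_apply]
    by_cases h1 : g (pos u) <;> by_cases h2 : h (pos u) <;> by_cases h3 : g (neg w) <;>
      by_cases h4 : h (neg w) <;> simp [h1, h2, h3, h4]
  rw [key]
  refine (rank_add_le' _ _).trans (Nat.add_le_add ?_ ?_)
  · exact rank_scale_le (mask A pos neg g) (fun u => if h (pos u) then (1 : K) else 0) (fun _ => 1)
  · exact rank_scale_le (mask A pos neg h) (fun u => if g (pos u) then (1 : K) else 0)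
      (fun w => if g (neg w) then 1 else 0)

theorem rb_exists_list {T : Type*} (s : List T) (g : T → (ι → Bool) → Prop) :
    rb A pos neg (fun x => ∃ t ∈ s, g t x) ≤ (s.map fun t => rb A pos neg (g t)).sum := by
  induction s with
  | nil =>
    simp only [List.not_mem_nil, false_and, exists_false, List.map_nil, List.sum_nil]
    exact rb_false.le
  | cons a s ih =>
    simp only [List.map_cons, List.sum_cons]
    refine le_trans (le_of_eq (rb_congr fun x => ?_)) ((rb_or (g a) _).trans
      (Nat.add_le_add_left ih _))
    simp

theorem rb_exists_list_le {T : Type*} (s : List T) (g : T → (ι → Bool) → Prop) {B : ℕ}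
    (h : ∀ t ∈ s, rb A pos neg (g t) ≤ B) :
    rb A pos neg (fun x => ∃ t ∈ s, g t x) ≤ s.length * B := by
  refine (rb_exists_list s g).trans ?_
  have := List.sum_le_card_nsmul (s.map fun t => rb A pos neg (g t)) B (by
    intro b hb
    rw [List.mem_map] at hb
    obtain ⟨t, ht, rfl⟩ := hb
    exact h t ht)
  simpa using this

theorem rb_exists_fintype_le {T : Type} [Fintype T] (g : T → (ι → Bool) → Prop) {B : ℕ}
    (h : ∀ t, rb A pos neg (g t) ≤ B) :
    rb A pos neg (fun x => ∃ t, g t x) ≤ Fintype.card T * B := by
  have h1 := rb_exists_list_le (A := A) (pos := pos) (neg := neg)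
    (Finset.univ : Finset T).toList g (B := B) (fun t _ => h t)
  rw [Finset.length_toList, Finset.card_univ] at h1
  refine le_trans (le_of_eq (rb_congr fun x => ?_)) h1
  simp

end measure

end Pool.Agent.J6H7.Chain
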